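import Mathlib

/-!
# Analytic sequences of `p`-adic integers

`An p f`: the `i`-th differences of `f` are divisible by `p ^ (2 i)`.
-/

set_option autoImplicit false

namespace Pool.Agent.J6H80.AP

variable {p : ℕ} [hp : Fact p.Prime]

/-- The `i`-th differences of `f` with step `1` are divisible by `p ^ (2 i)`. -/
def An (f : ℕ → ℤ_[p]) : Prop := ∀ i n : ℕ, (p : ℤ_[p]) ^ (2 * i) ∣ (fwdDiff 1)^[i] f n

theorem p_ne : (p : ℤ_[p]) ≠ 0 := by
  exact_mod_cast hp.out.ne_zero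

theorem pow_ne (n : ℕ) : (p : ℤ_[p]) ^ n ≠ 0 := pow_ne_zero _ p_ne

theorem cancel {n : ℕ} {x y : ℤ_[p]} (h : (p : ℤ_[p]) ^ n * x ∣ (p : ℤ_[p]) ^ n * y) : x ∣ y :=
  (mul_dvd_mul_iff_left (pow_ne n)).1 h

theorem An.shift {f : ℕ → ℤ_[p]} (h : An f) (a : ℕ) : An (fun x => f (x + a)) := by
  intro i n
  rw [fwdDiff_iter_comp_add 1 f a i n]
  exact h i (n + a)

theorem An.add {f g : ℕ → ℤ_[p]} (hf : An f) (hg : An g) : An (fun x => f x + g x) := by
  intro i n
  have e : (fun x => f x + g x) = f + g := rfl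
  rw [e, fwdDiff_iter_add]
  exact dvd_add (hf i n) (hg i n)

theorem An.const_mul {f : ℕ → ℤ_[p]} (hf : An f) (c : ℤ_[p]) : An (fun x => c * f x) := by
  intro i n
  have e : (fun x => c * f x) = c • f := by ext; simp
  rw [e, fwdDiff_iter_const_smul, Pi.smul_apply, smul_eq_mul]
  exact Dvd.dvd.mul_left (hf i n) c

theorem An.zero : An (fun _ => (0 : ℤ_[p])) := by
  intro i n
  have h := (fwdDiff_iter_const_smul (h := 1) (0 : ℤ_[p]) (fun _ : ℕ => (0 : ℤ_[p])) i)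
  have e : (fun _ : ℕ => (0 : ℤ_[p])) = (0 : ℤ_[p]) • (fun _ : ℕ => (0 : ℤ_[p])) := by ext; simp
  rw [e, h, Pi.smul_apply, zero_smul]
  exact dvd_zero _

/-- Division of the first difference. -/
theorem An.step {f : ℕ → ℤ_[p]} (hf : An f) :
    ∃ g : ℕ → ℤ_[p], An g ∧ ∀ x, f (x + 1) = f x + p ^ 2 * g x := by
  have h1 : ∀ x, ∃ y, f (x + 1) - f x = p ^ 2 * y := by
    intro x
    have := hf 1 x
    rw [mul_one, Function.iterate_one] at this
    exact this
  choose g hg using h1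
  have e : fwdDiff 1 f = ((p : ℤ_[p]) ^ 2) • g := by
    ext x
    simp only [fwdDiff, Pi.smul_apply, smul_eq_mul]
    rw [hg x]
  refine ⟨g, fun i n => ?_, fun x => by rw [← hg x]; ring⟩
  have h2 := hf (i + 1) n
  rw [Function.iterate_succ_apply, e, fwdDiff_iter_const_smul, Pi.smul_apply, smul_eq_mul,
    show 2 * (i + 1) = 2 + 2 * i by ring, pow_add] at h2
  exact cancel h2

/-- Steps of length `p ^ s`. -/
theorem An.steps {f : ℕ → ℤ_[p]} (hf : An f) (s : ℕ) :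
    ∃ g : ℕ → ℤ_[p], An g ∧ ∀ x, f (x + p ^ s) = f x + p ^ (s + 2) * g x := by
  induction s generalizing f with
  | zero =>
    obtain ⟨g, hg, h⟩ := hf.step
    exact ⟨g, hg, fun x => by rw [pow_zero, h x, zero_add]⟩
  | succ s ih =>
    -- `m` steps
    have key : ∀ (m : ℕ) (f : ℕ → ℤ_[p]), An f → ∃ k : ℕ → ℤ_[p], An k ∧
        ∀ x, f (x + p ^ s * m) = f x + p ^ (s + 2) * k x := by
      intro m
      induction m with
      | zero =>
        intro f _
        exact ⟨fun _ => 0, An.zero, fun x => by simp⟩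
      | succ m ihm =>
        intro f hf
        obtain ⟨k, hk, h⟩ := ihm f hf
        obtain ⟨g, hg, h2⟩ := ih hf
        refine ⟨fun x => k x + g (x + p ^ s * m), hk.add (hg.shift _), fun x => ?_⟩
        have e : x + p ^ s * (m + 1) = (x + p ^ s * m) + p ^ s := by ring
        rw [e, h2, h]
        ring
    obtain ⟨g, hg, h⟩ := ih hf
    -- `f (x + p ^ s m) = f x + p ^ (s + 2) (m g x + p ^ (s + 2) k x)`
    have key2 : ∀ m : ℕ, ∃ k : ℕ → ℤ_[p], An k ∧
        ∀ x, f (x + p ^ s * m) = f x + p ^ (s + 2) * (m * g x + p ^ (s + 2) * k x) := by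
      intro m
      induction m with
      | zero => exact ⟨fun _ => 0, An.zero, fun x => by simp⟩
      | succ m ihm =>
        obtain ⟨k, hk, h2⟩ := ihm
        obtain ⟨k', hk', h3⟩ := key m g hg
        refine ⟨fun x => k x + k' x, hk.add hk', fun x => ?_⟩
        have e : x + p ^ s * (m + 1) = (x + p ^ s * m) + p ^ s := by ring
        rw [e, h, h2, h3]
        push_cast
        ring
    obtain ⟨k, hk, h2⟩ := key2 p
    refine ⟨fun x => g x + p ^ (s + 1) * k x, hg.add (hk.const_mul _), fun x => ?_⟩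
    rw [pow_succ, h2]
    ring

/-- Congruence along multiples of `p ^ s`. -/
theorem An.congr_mul {f : ℕ → ℤ_[p]} (hf : An f) (s m x : ℕ) :
    (p : ℤ_[p]) ^ (s + 2) ∣ f (x + p ^ s * m) - f x := by
  induction m with
  | zero => simp
  | succ m ih =>
    obtain ⟨g, hg, h⟩ := hf.steps s
    have e : x + p ^ s * (m + 1) = (x + p ^ s * m) + p ^ s := by ring
    rw [e, h]
    have e2 : f (x + p ^ s * m) + p ^ (s + 2) * g (x + p ^ s * m) - f x =
      (f (x + p ^ s * m) - f x) + p ^ (s + 2) * g (x + p ^ s * m) := by ring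
    rw [e2]
    exact dvd_add ih (dvd_mul_right _ _)

/-- The Newton coefficient of index `i` is divisible by `p ^ (2 i)` but not by `p ^ (2 i + 1)`. -/
def Prim (i : ℕ) (f : ℕ → ℤ_[p]) : Prop := ¬ (p : ℤ_[p]) ^ (2 * i + 1) ∣ (fwdDiff 1)^[i] f 0

theorem newton (f : ℕ → ℤ_[p]) (x : ℕ) :
    f x = ∑ k ∈ Finset.range (x + 1), (x.choose k : ℤ_[p]) * (fwdDiff 1)^[k] f 0 := by
  have h := shift_eq_sum_fwdDiff_iter 1 f x 0
  simp only [zero_add, smul_eq_mul, mul_one, nsmul_eq_mul] at h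
  exact h

theorem le_val {β : ℕ} {x : ℤ_[p]} (hx : x ≠ 0) (h : (p : ℤ_[p]) ^ β ∣ x) : β ≤ x.valuation := by
  rw [← PadicInt.mem_span_pow_iff_le_valuation x hx β, Ideal.mem_span_singleton]
  exact h

/-- Division by the largest power of `p`. -/
theorem An.prim {f : ℕ → ℤ_[p]} (hf : An f) (h0 : ∃ x, f x ≠ 0) :
    ∃ (β i : ℕ) (g : ℕ → ℤ_[p]), An g ∧ Prim i g ∧ ∀ x, f x = p ^ β * g x := by
  classical
  have h1 : ∃ i, (fwdDiff 1)^[i] f 0 ≠ 0 := by
    by_contra hcon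
    push Not at hcon
    obtain ⟨x, hx⟩ := h0
    apply hx
    rw [newton f x]
    apply Finset.sum_eq_zero
    intro k _
    rw [hcon k, mul_zero]
  obtain ⟨i, hi⟩ := h1
  set B := ((fwdDiff 1)^[i] f 0).valuation with hB
  let Q : ℕ → Prop := fun β => ∃ g : ℕ → ℤ_[p], An g ∧ ∀ x, f x = p ^ β * g x
  have hQ0 : Q 0 := ⟨f, hf, fun x => by simp⟩
  have hQB : ∀ β, Q β → β ≤ B := by
    rintro β ⟨g, hg, h⟩
    have e : f = ((p : ℤ_[p]) ^ β) • g := by ext x; simp [h x]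
    apply le_val hi
    rw [e, fwdDiff_iter_const_smul, Pi.smul_apply, smul_eq_mul]
    exact dvd_mul_right _ _
  have hspec : Q (Nat.findGreatest Q B) := Nat.findGreatest_spec (Nat.zero_le B) hQ0
  obtain ⟨g, hg, h⟩ := hspec
  set β := Nat.findGreatest Q B with hβ
  refine ⟨β, ?_⟩
  by_contra hcon
  push Not at hcon
  -- all Newton coefficients of `g` are too divisible
  have h2 : ∀ j, (p : ℤ_[p]) ^ (2 * j + 1) ∣ (fwdDiff 1)^[j] g 0 := by
    intro j
    by_contra h3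
    obtain ⟨x, hx⟩ := hcon j g hg h3
    exact hx (h x)
  have h3 : ∀ j n, (p : ℤ_[p]) ^ (2 * j + 1) ∣ (fwdDiff 1)^[j] g n := by
    intro j n
    rw [newton ((fwdDiff 1)^[j] g) n]
    apply Finset.dvd_sum
    intro k _
    apply Dvd.dvd.mul_left
    rw [← Function.iterate_add_apply]
    exact (pow_dvd_pow _ (by omega)).trans (h2 (k + j))
  have h4 : ∀ x, ∃ y, g x = p ^ 1 * y := by
    intro x
    have := h3 0 x
    simp only [mul_zero, zero_add, Function.iterate_zero, id_eq] at this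
    exact this
  choose k hk using h4
  have ek : g = ((p : ℤ_[p]) ^ 1) • k := by ext x; simp [hk x]
  have hk2 : An k := by
    intro j n
    have h5 := h3 j n
    rw [ek, fwdDiff_iter_const_smul, Pi.smul_apply, smul_eq_mul, show 2 * j + 1 = 1 + 2 * j by ring,
      pow_add] at h5
    exact cancel h5
  have h6 : Q (β + 1) := ⟨k, hk2, fun x => by rw [h x, hk x]; ring⟩
  have h7 := Nat.le_findGreatest (hQB _ h6) h6
  omega

theorem Prim.add {i : ℕ} {g k : ℕ → ℤ_[p]} (hg : Prim i g) (hk : An k) (s : ℕ) :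
    Prim i (fun x => g x + (p : ℤ_[p]) ^ (s + 1) * k x) := by
  intro h
  apply hg
  have e : (fun x => g x + (p : ℤ_[p]) ^ (s + 1) * k x) = g + ((p : ℤ_[p]) ^ (s + 1)) • k := by ext x; simp
  rw [e, fwdDiff_iter_add, fwdDiff_iter_const_smul, Pi.add_apply, Pi.smul_apply, smul_eq_mul] at h
  refine (dvd_add_left ?_).1 h
  obtain ⟨y, hy⟩ := hk i 0
  rw [hy]
  exact ⟨(p : ℤ_[p]) ^ s * y, by ring⟩

/-- The quotients of the differences with steps `p ^ s`. -/
structure Tower (f : ℕ → ℤ_[p]) (β i : ℕ) (q : ℕ → ℕ → ℤ_[p]) : Prop where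
  an : ∀ s, An (q s)
  prim : ∀ s, Prim i (q s)
  step : ∀ s x, f (x + p ^ s) = f x + p ^ (s + 2 + β) * q s x
  next : ∀ s x, (p : ℤ_[p]) ^ (s + 1) ∣ q (s + 1) x - q s x

/-- Refined steps of length `p ^ s`, `m` times. -/
theorem An.msteps {f g : ℕ → ℤ_[p]} (hg : An g) {s β : ℕ}
    (h : ∀ x, f (x + p ^ s) = f x + p ^ (s + 2 + β) * g x) (m : ℕ) :
    ∃ k : ℕ → ℤ_[p], An k ∧ ∀ x, f (x + p ^ s * m) = f x + p ^ (s + 2 + β) * (m * g x + p ^ (s + 2) * k x) := by
  have key : ∀ m : ℕ, ∃ k : ℕ → ℤ_[p], An k ∧ ∀ x, g (x + p ^ s * m) = g x + p ^ (s + 2) * k x := by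
    intro m
    obtain ⟨g', hg', h2⟩ := hg.steps s
    induction m with
    | zero => exact ⟨fun _ => 0, An.zero, fun x => by simp⟩
    | succ m ihm =>
      obtain ⟨k, hk, h3⟩ := ihm
      refine ⟨fun x => k x + g' (x + p ^ s * m), hk.add (hg'.shift _), fun x => ?_⟩
      have e : x + p ^ s * (m + 1) = (x + p ^ s * m) + p ^ s := by ring
      rw [e, h2, h3]
      ring
  induction m with
  | zero => exact ⟨fun _ => 0, An.zero, fun x => by simp⟩
  | succ m ihm =>
    obtain ⟨k, hk, h2⟩ := ihm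
    obtain ⟨k', hk', h3⟩ := key m
    refine ⟨fun x => k x + k' x, hk.add hk', fun x => ?_⟩
    have e : x + p ^ s * (m + 1) = (x + p ^ s * m) + p ^ s := by ring
    rw [e, h, h2, h3]
    push_cast
    ring

theorem An.tower {f : ℕ → ℤ_[p]} (hf : An f) (h : ∃ x y, f x ≠ f y) :
    ∃ (β i : ℕ) (q : ℕ → ℕ → ℤ_[p]), Tower f β i q := by
  obtain ⟨g, hg, h1⟩ := hf.step
  have h2 : ∃ x, g x ≠ 0 := by
    by_contra hcon
    push Not at hcon
    have h3 : ∀ x, f x = f 0 := by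
      intro x
      induction x with
      | zero => rfl
      | succ x ih => rw [h1, hcon, mul_zero, add_zero, ih]
    obtain ⟨x, y, hxy⟩ := h
    exact hxy (by rw [h3 x, h3 y])
  obtain ⟨β, i, g1, hg1, hpr, h3⟩ := hg.prim h2
  -- the recursion
  let St (s : ℕ) := {q : ℕ → ℤ_[p] // An q ∧ Prim i q ∧ ∀ x, f (x + p ^ s) = f x + p ^ (s + 2 + β) * q x}
  have key : ∀ (s : ℕ) (q : St s), ∃ q' : St (s + 1), ∀ x, (p : ℤ_[p]) ^ (s + 1) ∣ q'.1 x - q.1 x := by
    intro s q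
    obtain ⟨k, hk, h4⟩ := q.2.1.msteps q.2.2.2 p
    refine ⟨⟨fun x => q.1 x + p ^ (s + 1) * k x, q.2.1.add (hk.const_mul _), q.2.2.1.add hk s, fun x => ?_⟩,
      fun x => ?_⟩
    · rw [pow_succ, h4]
      ring
    · simp
  choose F hF using key
  have h0 : ∀ x, f (x + p ^ 0) = f x + p ^ (0 + 2 + β) * g1 x := by
    intro x
    rw [pow_zero, h1, h3]
    ring
  let P : (s : ℕ) → St s := fun s => Nat.rec ⟨g1, hg1, hpr, h0⟩ (fun s q => F s q) s
  have hPs : ∀ s, P (s + 1) = F s (P s) := fun s => rfl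
  exact ⟨β, i, fun s => (P s).1, ⟨fun s => (P s).2.1, fun s => (P s).2.2.1, fun s x => (P s).2.2.2 x,
    fun s x => hF s (P s) x⟩⟩

end Pool.Agent.J6H80.AP
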