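import Pool.Agent.J6H80.AP.Cnt

/-!
Counting in one dyadic block, and in `[1, N]`.
-/

set_option autoImplicit false

namespace Pool.Agent.J6H80.AP

open Finset
open Pool.Agent.H469R2.NK (e norm_e conj_e e_add)

/-- the points -/
noncomputable def th (δ : ℝ) (n : ℕ) : ℝ := δ * Real.log n / (2 * Real.pi)

/-- one dyadic block -/
theorem block_count (Q : ℕ) (hQ : 1 ≤ Q) : ∃ η : ℝ, 0 < η ∧ η ≤ 1 ∧ ∃ C : ℝ, 1 ≤ C ∧
    ∀ (δ θ ρ : ℝ) (X : ℕ), 20 ≤ δ → 1 ≤ X → 0 < ρ → ρ ≤ 1 / 4 → (2 * δ) ^ (1 / 2 : ℝ) ≤ X → δ / ρ ≤ δ ^ Q →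
      (((Ico X (2 * X)).filter (fun n => dn (th δ n - θ) ≤ ρ)).card : ℝ) ≤ C * (X * ρ + δ ^ (1 - η)) := by
  classical
  obtain ⟨η, hη, hη1, C0, hC0, hexp⟩ := lem_exp Q hQ
  refine ⟨η, hη, hη1, 1664 + 4 * C0, by linarith, ?_⟩
  intro δ θ ρ X hδ hX hρ hρ1 hXδ hδρ
  have hδ0 : 0 < δ := by linarith
  have hpi0 := Real.pi_pos
  have hpi1 := Real.pi_gt_three
  have hpi2 : Real.pi < 3.15 := Real.pi_lt_d2
  have hX1 : (1 : ℝ) ≤ X := by exact_mod_cast hX
  have hX0 : (0 : ℝ) < X := by linarith
  set s : ℝ := 2 * Real.pi / δ with hs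
  have hs0 : 0 < s := by positivity
  have hs1 : s ≤ 63 / 200 := by
    rw [hs, div_le_iff₀ hδ0]
    nlinarith
  set r : ℝ := 26 * X * ρ / δ with hr
  have hr0 : 0 < r := by positivity
  set S := (Ico X (2 * X)).filter (fun n => dn (th δ n - θ) ≤ ρ) with hS
  -- the integer attached to `n`
  set κ : ℕ → ℤ := fun n => round (th δ n - θ) with hκ
  set y : ℝ → ℝ := fun x => Real.exp (s * (θ + x)) with hy
  have hth : ∀ n : ℕ, 1 ≤ n → s * th δ n = Real.log n := by
    intro n _
    unfold th
    rw [hs]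
    field_simp
  -- comparison of `n` and `y (κ n)`
  have hv : ∀ n ∈ S, ∃ v : ℝ, |v| ≤ s * ρ ∧ y (κ n) = n * Real.exp (-v) := by
    intro n hn
    rw [hS, mem_filter, mem_Ico] at hn
    have hn1 : 1 ≤ n := by omega
    have hn0 : (0 : ℝ) < n := by exact_mod_cast hn1
    refine ⟨s * (th δ n - θ - κ n), ?_, ?_⟩
    · rw [abs_mul, abs_of_pos hs0]
      exact mul_le_mul_of_nonneg_left hn.2 hs0.le
    · simp only [hy]
      have h1 : s * (θ + (κ n : ℝ)) = Real.log n + -(s * (th δ n - θ - κ n)) := by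
        rw [← hth n hn1]
        ring
      rw [h1, Real.exp_add, Real.exp_log hn0]
  have hsρ : s * ρ ≤ 1 / 10 := by nlinarith
  have hyX : ∀ n ∈ S, (X : ℝ) / 2 ≤ y (κ n) ∧ y (κ n) ≤ 4 * X ∧ |(n : ℝ) - y (κ n)| ≤ r := by
    intro n hn
    obtain ⟨v, hv1, hv2⟩ := hv n hn
    rw [hS, mem_filter, mem_Ico] at hn
    have hnX : (X : ℝ) ≤ n := by exact_mod_cast hn.1.1
    have hnX2 : (n : ℝ) ≤ 2 * X := by
      have : n ≤ 2 * X := by omega
      exact_mod_cast this
    have hn0 : (0 : ℝ) < n := by linarith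
    have h1 : |Real.exp (-v) - 1| ≤ 2 * |v| := by
      have := Real.abs_exp_sub_one_le (x := -v) (by rw [abs_neg]; linarith)
      rwa [abs_neg] at this
    have h2 : |(n : ℝ) - y (κ n)| ≤ n * (2 * |v|) := by
      rw [hv2]
      have e1 : (n : ℝ) - n * Real.exp (-v) = -(n * (Real.exp (-v) - 1)) := by ring
      rw [e1, abs_neg, abs_mul, abs_of_pos hn0]
      gcongr
    have h3 : |(n : ℝ) - y (κ n)| ≤ 2 * X * (2 * (s * ρ)) := by
      refine h2.trans ?_
      gcongr
    have h4 : 2 * X * (2 * (s * ρ)) ≤ r := by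
      rw [hr, hs]
      have e1 : 2 * (X : ℝ) * (2 * (2 * Real.pi / δ * ρ)) = (8 * Real.pi) * (X * ρ) / δ := by ring
      rw [e1]
      have e2 : 26 * (X : ℝ) * ρ / δ = 26 * (X * ρ) / δ := by ring
      rw [e2]
      gcongr
      linarith
    have h5 := abs_le.1 h3
    have h6 : 2 * (X : ℝ) * (2 * (s * ρ)) ≤ 2 * X * (2 * (1 / 10)) := by gcongr
    refine ⟨by linarith [h5.2], by linarith [h5.1], h3.trans h4⟩
  -- the range of the integers
  set a : ℝ := Real.log (X / 2) / s - θ with ha
  set b : ℝ := Real.log (4 * X) / s - θ with hb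
  have hba : b - a = Real.log 8 / s := by
    rw [hb, ha]
    have h1 : Real.log (4 * X) = Real.log 8 + Real.log (X / 2) := by
      rw [← Real.log_mul (by norm_num) (by positivity)]
      congr 1
      ring
    rw [h1]
    ring
  have hlog8 : Real.log 8 ≤ 2.08 := by
    have h1 : Real.log 8 = 3 * Real.log 2 := by
      rw [show (8 : ℝ) = 2 ^ 3 by norm_num, Real.log_pow]
      norm_num
    have h2 := Real.log_two_lt_d9
    linarith
  have hlog80 : 0 < Real.log 8 := Real.log_pos (by norm_num)
  have hba0 : 0 < b - a := by rw [hba]; positivity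
  have hba1 : b - a + 1 ≤ δ := by
    rw [hba, hs, div_div_eq_mul_div]
    have h1 : Real.log 8 * δ / (2 * Real.pi) ≤ 2.08 * δ / 6 := by
      apply div_le_div₀ (by positivity) (by gcongr) (by norm_num) (by linarith)
    linarith
  have hab : ∀ n ∈ S, a ≤ κ n ∧ (κ n : ℝ) ≤ b := by
    intro n hn
    obtain ⟨h1, h2, _⟩ := hyX n hn
    have h3 := Real.log_le_log (by positivity) h1
    have h4 := Real.log_le_log (by positivity) h2
    simp only [hy] at h3 h4
    rw [Real.log_exp] at h3 h4
    constructor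
    · rw [ha]
      have : Real.log (X / 2) / s ≤ θ + κ n := by
        rw [div_le_iff₀ hs0]; linarith
      linarith
    · rw [hb]
      have : θ + κ n ≤ Real.log (4 * X) / s := by
        rw [le_div_iff₀ hs0]; linarith
      linarith
  set k0 : ℤ := ⌈a⌉ with hk0
  set L : ℕ := ⌊b - a⌋₊ + 1 with hL
  have hLδ : (L : ℝ) ≤ δ := by
    rw [hL]
    push_cast
    have := Nat.floor_le hba0.le
    linarith
  have hk0a : a ≤ k0 := Int.le_ceil a
  have hk0b : (k0 : ℝ) < a + 1 := Int.ceil_lt_add_one a
  have hidx : ∀ n ∈ S, ∃ i < L, κ n = k0 + (i : ℤ) := by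
    intro n hn
    obtain ⟨h1, h2⟩ := hab n hn
    have h3 : k0 ≤ κ n := Int.ceil_le.2 h1
    refine ⟨(κ n - k0).toNat, ?_, by omega⟩
    have h4 : (((κ n - k0).toNat : ℕ) : ℝ) ≤ b - a := by
      have h5 : (((κ n - k0).toNat : ℤ) : ℝ) = ((κ n - k0 : ℤ) : ℝ) := by
        rw [Int.toNat_of_nonneg (by omega)]
      have h6 : (((κ n - k0).toNat : ℕ) : ℝ) = ((κ n - k0 : ℤ) : ℝ) := by
        rw [← h5]; push_cast; rfl
      rw [h6]
      push_cast
      linarith
    have h5 := Nat.le_floor h4
    omega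
  have hrange : ∀ x ∈ Set.Icc (k0 : ℝ) (k0 + L), (X : ℝ) / 4 ≤ Real.exp (s * (θ + x)) ∧
      Real.exp (s * (θ + x)) ≤ 8 * X := by
    intro x hx
    constructor
    · have h1 : Real.log (X / 2) ≤ s * (θ + x) := by
        have h2 : Real.log (X / 2) / s ≤ θ + x := by
          have : a ≤ x := hk0a.trans hx.1
          rw [ha] at this
          linarith
        rw [div_le_iff₀ hs0] at h2
        linarith
      have h2 := Real.exp_le_exp.2 h1
      rw [Real.exp_log (by positivity)] at h2
      linarith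
    · have h1 : s * (θ + x) ≤ Real.log (4 * X) + Real.log 2 := by
        have h2 : x ≤ b + 2 := by
          have h3 : (L : ℝ) ≤ b - a + 1 := by
            rw [hL]
            push_cast
            have := Nat.floor_le hba0.le
            linarith
          linarith [hx.2]
        have h3 : s * (θ + b) = Real.log (4 * X) := by
          rw [hb]
          field_simp
          ring
        have h4 : s * (θ + x) ≤ s * (θ + b) + s * 2 := by nlinarith
        have h5 := Real.log_two_gt_d9
        linarith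
      have h2 := Real.exp_le_exp.2 h1
      rw [Real.exp_add, Real.exp_log (by positivity), Real.exp_log (by norm_num)] at h2
      linarith
  -- `n ↦ i`
  choose! idx hidx1 hidx2 using hidx
  have hyi : ∀ n ∈ S, y (κ n) = y (k0 + (idx n : ℝ)) := by
    intro n hn
    have h1 : (κ n : ℝ) = k0 + (idx n : ℝ) := by
      have := hidx2 n hn
      rw [this]
      push_cast
      rfl
    rw [h1]
  have hδη : 0 ≤ δ ^ (1 - η) := by positivity
  rcases le_or_gt (1 / 16) r with hr1 | hr1
  · -- many integers near each point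
    have h1 : S.card ≤ ⌊2 * r + 1⌋₊ * (range L).card := by
      apply card_le_mul_card_image_of_maps_to (f := idx)
      · intro n hn
        exact mem_range.2 (hidx1 n hn)
      · intro i _
        apply Nat.le_floor
        apply int_count _ (y (k0 + (i : ℝ))) r hr0.le
        intro n hn
        rw [mem_filter] at hn
        have h2 := (hyX n hn.1).2.2
        rw [hyi n hn.1, hn.2] at h2
        exact h2
    rw [card_range] at h1
    have h2 : (S.card : ℝ) ≤ (2 * r + 1) * L := by
      have h3 : (S.card : ℝ) ≤ (⌊2 * r + 1⌋₊ : ℝ) * L := by exact_mod_cast h1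
      have h4 : (⌊2 * r + 1⌋₊ : ℝ) ≤ 2 * r + 1 := Nat.floor_le (by linarith)
      exact h3.trans (by gcongr)
    calc (S.card : ℝ) ≤ (2 * r + 1) * L := h2
      _ ≤ (18 * r) * δ := by
          have : 2 * r + 1 ≤ 18 * r := by linarith
          gcongr
      _ = 468 * (X * ρ) := by rw [hr]; field_simp; norm_num
      _ ≤ (1664 + 4 * C0) * (X * ρ + δ ^ (1 - η)) := by
          have h3 : 0 ≤ (X : ℝ) * ρ := by positivity
          nlinarith
  · -- at most one integer near each point
    have hinj : Set.InjOn idx (S : Set ℕ) := by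
      intro n hn n' hn' hnn
      rw [mem_coe] at hn hn'
      have h1 := (hyX n hn).2.2
      have h2 := (hyX n' hn').2.2
      rw [hyi n hn] at h1
      rw [hyi n' hn', ← hnn] at h2
      have h3 := abs_le.1 h1
      have h4 := abs_le.1 h2
      have h5 : (n : ℝ) - n' < 1 := by linarith [h3.2, h4.1]
      have h6 : (n' : ℝ) - n < 1 := by linarith [h3.1, h4.2]
      have h7 : n < n' + 1 := by
        have : (n : ℝ) < n' + 1 := by linarith
        exact_mod_cast this
      have h8 : n' < n + 1 := by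
        have : (n' : ℝ) < n + 1 := by linarith
        exact_mod_cast this
      omega
    have h1 : S.card ≤ ((range L).filter (fun i : ℕ => dn (y (k0 + (i : ℝ))) ≤ r)).card := by
      apply card_le_card_of_injOn idx _ hinj
      intro n hn
      rw [mem_coe] at hn
      rw [mem_coe, mem_filter]
      refine ⟨mem_range.2 (hidx1 n hn), ?_⟩
      have h2 := (hyX n hn).2.2
      rw [hyi n hn] at h2
      refine le_trans (dn_le _ (n : ℤ)) ?_
      rw [abs_sub_comm]
      exact_mod_cast h2
    set H : ℕ := ⌊1 / (8 * r)⌋₊ with hH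
    have hH2 : 2 ≤ H := by
      apply Nat.le_floor
      rw [le_div_iff₀ (by positivity)]
      push_cast
      linarith
    have hH2' : (2 : ℝ) ≤ H := by exact_mod_cast hH2
    have hHle : (H : ℝ) ≤ 1 / (8 * r) := Nat.floor_le (by positivity)
    have hHge : 1 / (16 * r) ≤ H := by
      have h2 : 1 / (8 * r) < H + 1 := Nat.lt_floor_add_one _
      have h3 : 1 / (16 * r) = 1 / (8 * r) / 2 := by field_simp; norm_num
      rw [h3]
      linarith
    have h2 := near_count (fun i : ℕ => y (k0 + (i : ℝ))) L H (by omega) (C0 * δ ^ (1 - η)) (by positivity) (by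
      intro h hh1 hh2
      have hh1' : (1 : ℝ) ≤ h := by exact_mod_cast hh1
      have hh2' : (h : ℝ) ≤ H := by exact_mod_cast hh2.le
      have h3 := hexp δ θ k0 X h L (by linarith) hLδ hX0 (by linarith) hrange (by
        refine hXδ.trans ?_
        nlinarith) (by
        refine le_trans ?_ hδρ
        calc (h : ℝ) * X ≤ 1 / (8 * r) * X := by
              gcongr
              exact hh2'.trans hHle
          _ = δ / ρ / 208 := by rw [hr]; field_simp; norm_num
          _ ≤ δ / ρ := by
              apply div_le_self (by positivity) (by norm_num))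
      simp only [hy]
      exact h3) r (by
      rw [le_div_iff₀ (by positivity)]
      rw [le_div_iff₀ (by positivity)] at hHle
      linarith)
    have h3 : (S.card : ℝ) ≤ 4 * (L / H + C0 * δ ^ (1 - η)) := by
      refine le_trans ?_ h2
      exact_mod_cast h1
    have h4 : (L : ℝ) / H ≤ 416 * (X * ρ) := by
      rw [div_le_iff₀ (by linarith)]
      calc (L : ℝ) ≤ δ := hLδ
        _ = 416 * (X * ρ) * (1 / (16 * r)) := by rw [hr]; field_simp; norm_num
        _ ≤ _ := by gcongr
    have h5 : 0 ≤ (X : ℝ) * ρ := by positivity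
    nlinarith

end Pool.Agent.J6H80.AP
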