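import Pool.Agent.J6H80.ML.Piece

/-!
The number of the integers `n ≤ N` for which `δ log n / 2π` is close to a given residue class modulo one.
-/

set_option autoImplicit false

namespace Pool.Agent.J6H80.AP

open Finset
open Pool.Agent.H469R2.NK (e norm_e conj_e e_add)
open Pool.Agent.J6H80.ML (vdc2)

/-- the distance to the nearest integer -/
noncomputable def dn (x : ℝ) : ℝ := |x - round x|

theorem dn_nonneg (x : ℝ) : 0 ≤ dn x := abs_nonneg _

theorem dn_le_half (x : ℝ) : dn x ≤ 1 / 2 := abs_sub_round x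

theorem dn_le (x : ℝ) (k : ℤ) : dn x ≤ |x - k| := round_le x k

theorem e_sub_int (x : ℝ) (k : ℤ) : e (x - k) = e x := by
  unfold e
  have h1 : (((2 * Real.pi * (x - k) : ℝ) : ℂ)) * Complex.I =
      ((2 * Real.pi * x : ℝ) : ℂ) * Complex.I - (k : ℂ) * (2 * Real.pi * Complex.I) := by
    push_cast
    ring
  rw [h1, Complex.exp_sub, Complex.exp_int_mul_two_pi_mul_I, div_one]

theorem e_re (x : ℝ) : (e x).re = Real.cos (2 * Real.pi * x) := by
  unfold e
  rw [Complex.exp_ofReal_mul_I_re]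

/-- many integers near the points give a large exponential sum -/
theorem near_count (y : ℕ → ℝ) (L H : ℕ) (hH : 1 ≤ H) (B : ℝ) (hB0 : 0 ≤ B)
    (hB : ∀ h : ℕ, 1 ≤ h → h < H → ‖∑ k ∈ range L, e (h * y k)‖ ≤ B) (r : ℝ) (hr : r ≤ 1 / (8 * H)) :
    (((range L).filter (fun k => dn (y k) ≤ r)).card : ℝ) ≤ 4 * (L / H + B) := by
  classical
  have hH1 : (1 : ℝ) ≤ H := by exact_mod_cast hH
  have hH0 : (0 : ℝ) < H := by linarith
  have hpi := Real.pi_pos
  -- lower bound at the near points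
  have h1 : ∀ k ∈ (range L).filter (fun k => dn (y k) ≤ r), ((H : ℝ) / 2) ^ 2 ≤ ‖∑ h ∈ range H, e (h * y k)‖ ^ 2 := by
    intro k hk
    have hk2 := (mem_filter.1 hk).2
    apply pow_le_pow_left₀ (by positivity)
    have h2 : (H : ℝ) / 2 ≤ (∑ h ∈ range H, e (h * y k)).re := by
      rw [Complex.re_sum]
      calc (H : ℝ) / 2 = ∑ h ∈ range H, (1 / 2 : ℝ) := by
            rw [sum_const, card_range, nsmul_eq_mul]; ring
        _ ≤ _ := by
            apply sum_le_sum
            intro h hh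
            rw [mem_range] at hh
            have hh' : (h : ℝ) ≤ H := by exact_mod_cast hh.le
            have h3 : e (h * y k) = e (h * (y k - round (y k))) := by
              have h4 := e_sub_int (h * y k) ((h : ℤ) * round (y k))
              rw [← h4]
              congr 1
              push_cast
              ring
            rw [h3, e_re]
            set x : ℝ := 2 * Real.pi * (h * (y k - round (y k))) with hx
            have h5 : |x| ≤ 4 / 5 := by
              rw [hx, abs_mul, abs_of_pos (by positivity : 0 < 2 * Real.pi), abs_mul, abs_of_nonneg (Nat.cast_nonneg h)]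
              have h6 : |y k - round (y k)| ≤ 1 / (8 * H) := hk2.trans hr
              have h7 : Real.pi < 3.15 := Real.pi_lt_d2
              calc 2 * Real.pi * (h * |y k - round (y k)|) ≤ 2 * 3.15 * (H * (1 / (8 * H))) := by
                    gcongr
                _ = 2 * 3.15 / 8 := by field_simp
                _ ≤ 4 / 5 := by norm_num
            have h6 := Real.one_sub_sq_div_two_le_cos (x := x)
            have h7 : x ^ 2 ≤ (4 / 5) ^ 2 := by
              rw [← sq_abs]
              exact pow_le_pow_left₀ (abs_nonneg _) h5 2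
            nlinarith
    exact h2.trans (Complex.re_le_norm _)
  have h2 : (((range L).filter (fun k => dn (y k) ≤ r)).card : ℝ) * (H / 2) ^ 2 ≤
      ∑ k ∈ range L, ‖∑ h ∈ range H, e (h * y k)‖ ^ 2 := by
    calc (((range L).filter (fun k => dn (y k) ≤ r)).card : ℝ) * (H / 2) ^ 2
        = ∑ k ∈ (range L).filter (fun k => dn (y k) ≤ r), ((H : ℝ) / 2) ^ 2 := by
          rw [sum_const, nsmul_eq_mul]
      _ ≤ ∑ k ∈ (range L).filter (fun k => dn (y k) ≤ r), ‖∑ h ∈ range H, e (h * y k)‖ ^ 2 := sum_le_sum h1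
      _ ≤ _ := sum_le_sum_of_subset_of_nonneg (filter_subset _ _) (fun _ _ _ => by positivity)
  -- upper bound
  have h3 : ∑ k ∈ range L, ‖∑ h ∈ range H, e (h * y k)‖ ^ 2 ≤ H * L + H ^ 2 * B := by
    have e1 : ((∑ k ∈ range L, ‖∑ h ∈ range H, e (h * y k)‖ ^ 2 : ℝ) : ℂ) =
        ∑ h ∈ range H, ∑ h' ∈ range H, ∑ k ∈ range L, e (((h : ℝ) - h') * y k) := by
      push_cast
      have e2 : ∀ k, ((‖∑ h ∈ range H, e (h * y k)‖ : ℝ) : ℂ) ^ 2 =
          ∑ h ∈ range H, ∑ h' ∈ range H, e (((h : ℝ) - h') * y k) := by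
        intro k
        rw [← Complex.mul_conj', map_sum, sum_mul_sum]
        apply sum_congr rfl
        intro h _
        apply sum_congr rfl
        intro h' _
        rw [conj_e, ← e_add]
        congr 1
        ring
      rw [sum_congr rfl (fun k _ => e2 k), sum_comm]
      apply sum_congr rfl
      intro h _
      rw [sum_comm]
    have e3 : ∑ k ∈ range L, ‖∑ h ∈ range H, e (h * y k)‖ ^ 2 ≤
        ∑ h ∈ range H, ∑ h' ∈ range H, ‖∑ k ∈ range L, e (((h : ℝ) - h') * y k)‖ := by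
      have e4 : ∑ k ∈ range L, ‖∑ h ∈ range H, e (h * y k)‖ ^ 2 ≤
          ‖((∑ k ∈ range L, ‖∑ h ∈ range H, e (h * y k)‖ ^ 2 : ℝ) : ℂ)‖ := by
        rw [Complex.norm_real]
        exact le_abs_self _
      refine e4.trans ?_
      rw [e1]
      refine (norm_sum_le _ _).trans (sum_le_sum fun h _ => norm_sum_le _ _)
    have hneg : ∀ a : ℝ, ‖∑ k ∈ range L, e (-a * y k)‖ = ‖∑ k ∈ range L, e (a * y k)‖ := by
      intro a
      rw [← RCLike.norm_conj, map_sum]
      congr 1
      apply sum_congr rfl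
      intro n _
      rw [conj_e]
      congr 1
      ring
    have e5 : ∀ h ∈ range H, ∑ h' ∈ range H, ‖∑ k ∈ range L, e (((h : ℝ) - h') * y k)‖ ≤ L + H * B := by
      intro h hh
      rw [mem_range] at hh
      have e6 : ∀ h' ∈ range H, ‖∑ k ∈ range L, e (((h : ℝ) - h') * y k)‖ ≤ (if h' = h then (L : ℝ) else 0) + B := by
        intro h' hh'
        rw [mem_range] at hh'
        split_ifs with h4
        · subst h4
          have : ‖∑ k ∈ range L, e (((h' : ℝ) - h') * y k)‖ ≤ L := by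
            refine (norm_sum_le _ _).trans ?_
            simp only [norm_e, sum_const, card_range, nsmul_eq_mul, mul_one, le_refl]
          linarith
        · rw [zero_add]
          rcases Nat.lt_or_gt_of_ne h4 with h5 | h5
          · have h6 := hB (h - h') (by omega) (by omega)
            rwa [Nat.cast_sub h5.le] at h6
          · have h6 := hB (h' - h) (by omega) (by omega)
            rw [Nat.cast_sub h5.le] at h6
            rw [← hneg] at h6
            rwa [neg_sub] at h6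
      refine (sum_le_sum e6).trans (le_of_eq ?_)
      rw [sum_add_distrib, sum_ite_eq' (range H) h (fun _ => (L : ℝ)), if_pos (mem_range.2 hh), sum_const,
        card_range, nsmul_eq_mul]
    refine e3.trans ((sum_le_sum e5).trans (le_of_eq ?_))
    rw [sum_const, card_range, nsmul_eq_mul]
    ring
  have h4 := h2.trans h3
  have h5 : (((range L).filter (fun k => dn (y k) ≤ r)).card : ℝ) * (H / 2) ^ 2 ≤ 4 * (L / H + B) * (H / 2) ^ 2 := by
    refine h4.trans (le_of_eq ?_)
    field_simp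
    ring
  exact le_of_mul_le_mul_right h5 (by positivity)

/-- the exponential sums -/
theorem lem_exp (Q : ℕ) (hQ : 1 ≤ Q) : ∃ η : ℝ, 0 < η ∧ η ≤ 1 ∧ ∃ C : ℝ, 1 ≤ C ∧
    ∀ (δ θ u X h : ℝ) (L : ℕ), 10 ≤ δ → (L : ℝ) ≤ δ → 0 < X → 0 < h →
      (∀ x ∈ Set.Icc u (u + L), X / 4 ≤ Real.exp (2 * Real.pi / δ * (θ + x)) ∧
        Real.exp (2 * Real.pi / δ * (θ + x)) ≤ 8 * X) →
      (2 * δ) ^ (1 / 2 : ℝ) ≤ h * X → h * X ≤ δ ^ Q →
      ‖∑ n ∈ range L, e (h * Real.exp (2 * Real.pi / δ * (θ + (u + n))))‖ ≤ C * δ ^ (1 - η) := by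
  have hpi := Real.pi_gt_three
  have hpi0 := Real.pi_pos
  obtain ⟨η, hη, hη1, C, hC, h0⟩ := vdc2 Q hQ (1 / 4) (8 * (4 * Real.pi) ^ (Q + 1)) (by norm_num) (by
    have : (1 : ℝ) ≤ (4 * Real.pi) ^ (Q + 1) := one_le_pow₀ (by linarith)
    linarith)
  refine ⟨η, hη, hη1, 2 * C, by linarith, ?_⟩
  intro δ θ u X h L hδ hL hX hh hy hF1 hF2
  have hδ0 : 0 < δ := by linarith
  set N : ℕ := ⌈δ⌉₊ with hN
  have hN1 : δ ≤ N := Nat.le_ceil δ
  have hN2 : (N : ℝ) ≤ 2 * δ := by
    have := Nat.ceil_lt_add_one hδ0.le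
    linarith
  have hN0 : (0 : ℝ) < N := by linarith
  have hNpos : 1 ≤ N := by
    have : 0 < N := by exact_mod_cast hN0
    omega
  set φ : ℕ → ℝ → ℝ := fun m x => (2 * Real.pi / δ) ^ m * (h * Real.exp (2 * Real.pi / δ * (θ + x))) with hφ
  have hder : ∀ m x, HasDerivAt (φ m) (φ (m + 1) x) x := by
    intro m x
    simp only [hφ]
    have h1 : HasDerivAt (fun x : ℝ => 2 * Real.pi / δ * (θ + x)) (2 * Real.pi / δ) x := by
      have := ((hasDerivAt_id' x).const_add θ).const_mul (2 * Real.pi / δ)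
      simpa using this
    have h2 := (h1.exp.const_mul h).const_mul ((2 * Real.pi / δ) ^ m)
    refine h2.congr_deriv ?_
    rw [pow_succ]
    ring
  have h1 := h0 N L u (h * X) φ hNpos (by
    have : (L : ℝ) ≤ N := hL.trans hN1
    exact_mod_cast this) (by
    refine le_trans ?_ hF1
    exact Real.rpow_le_rpow hN0.le hN2 (by norm_num)) (by
    refine hF2.trans ?_
    exact pow_le_pow_left₀ hδ0.le hN1 Q) (fun m _ x _ => hder m x) (by
    intro x hx
    simp only [hφ]
    have h2 := (hy x hx).1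
    have h3 : (1 : ℝ) / (N : ℝ) ^ (Q + 1) ≤ (2 * Real.pi / δ) ^ (Q + 1) := by
      rw [div_pow, div_le_div_iff₀ (by positivity) (by positivity), one_mul]
      calc δ ^ (Q + 1) ≤ (N : ℝ) ^ (Q + 1) := pow_le_pow_left₀ hδ0.le hN1 _
        _ ≤ (2 * Real.pi) ^ (Q + 1) * (N : ℝ) ^ (Q + 1) := by
            apply le_mul_of_one_le_left (by positivity)
            exact one_le_pow₀ (by linarith)
    calc 1 / 4 * (h * X) / (N : ℝ) ^ (Q + 1) = 1 / (N : ℝ) ^ (Q + 1) * (h * (X / 4)) := by ring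
      _ ≤ (2 * Real.pi / δ) ^ (Q + 1) * (h * Real.exp (2 * Real.pi / δ * (θ + x))) := by gcongr) (by
    intro x hx
    simp only [hφ]
    have h2 := (hy x hx).2
    have h3 : (2 * Real.pi / δ) ^ (Q + 1) ≤ (4 * Real.pi) ^ (Q + 1) / (N : ℝ) ^ (Q + 1) := by
      rw [← div_pow]
      apply pow_le_pow_left₀ (by positivity)
      rw [div_le_div_iff₀ hδ0 hN0]
      nlinarith
    calc (2 * Real.pi / δ) ^ (Q + 1) * (h * Real.exp (2 * Real.pi / δ * (θ + x)))
        ≤ (4 * Real.pi) ^ (Q + 1) / (N : ℝ) ^ (Q + 1) * (h * (8 * X)) := by gcongr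
      _ = _ := by ring) (by
    left
    intro x _
    simp only [hφ]
    positivity)
  have h2 : ∑ n ∈ range L, e (h * Real.exp (2 * Real.pi / δ * (θ + (u + n)))) = ∑ n ∈ range L, e (φ 0 (u + n)) := by
    apply sum_congr rfl
    intro n _
    simp only [hφ, pow_zero, one_mul]
  rw [h2]
  refine h1.trans ?_
  have h3 : (N : ℝ) ^ (1 - η) ≤ 2 * δ ^ (1 - η) := by
    calc (N : ℝ) ^ (1 - η) ≤ (2 * δ) ^ (1 - η) := Real.rpow_le_rpow hN0.le hN2 (by linarith)
      _ = 2 ^ (1 - η) * δ ^ (1 - η) := Real.mul_rpow (by norm_num) hδ0.le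
      _ ≤ 2 * δ ^ (1 - η) := by
          have : (2 : ℝ) ^ (1 - η) ≤ 2 := by
            calc (2 : ℝ) ^ (1 - η) ≤ 2 ^ (1 : ℝ) := Real.rpow_le_rpow_of_exponent_le (by norm_num) (by linarith)
              _ = 2 := Real.rpow_one _
          gcongr
  calc C * (N : ℝ) ^ (1 - η) ≤ C * (2 * δ ^ (1 - η)) := by gcongr
    _ = _ := by ring

/-- the number of integers in an interval -/
theorem int_count (s : Finset ℕ) (y r : ℝ) (hr : 0 ≤ r) (h : ∀ n ∈ s, |(n : ℝ) - y| ≤ r) : (s.card : ℝ) ≤ 2 * r + 1 := by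
  rcases s.eq_empty_or_nonempty with h0 | h0
  · rw [h0]
    simp only [card_empty, Nat.cast_zero]
    linarith
  set a := s.min' h0 with ha
  set b := s.max' h0 with hb
  have h1 : s ⊆ Icc a b := fun n hn => mem_Icc.2 ⟨min'_le s n hn, le_max' s n hn⟩
  have h2 := card_le_card h1
  rw [Nat.card_Icc] at h2
  have hab : a ≤ b := min'_le s b (max'_mem s h0)
  have h3 : (s.card : ℝ) ≤ (b : ℝ) + 1 - a := by
    have : ((b + 1 - a : ℕ) : ℝ) = (b : ℝ) + 1 - a := by
      rw [Nat.cast_sub (by omega)]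
      push_cast
      ring
    rw [← this]
    exact_mod_cast h2
  have h4 := abs_le.1 (h a (min'_mem s h0))
  have h5 := abs_le.1 (h b (max'_mem s h0))
  linarith

end Pool.Agent.J6H80.AP
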