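import Mathlib
import Pool.Agent.J6H80.AP.Cnt

/-!
# Eventually analytic sequences and their limit functions
-/

set_option autoImplicit false

namespace Pool.Agent.J6H80.AP

open Finset Filter

/-- For `n ≥ c i` the `i`-th difference at `n` is divisible by `D ^ (2 i)`. -/
def Ev (D c : ℕ) (w : ℕ → ℤ) : Prop := ∀ i n : ℕ, c * i ≤ n → (D : ℤ) ^ (2 * i) ∣ (fwdDiff 1)^[i] w n

theorem Ev.of_dvd {D D' c : ℕ} {w : ℕ → ℤ} (h : Ev D c w) (hd : D' ∣ D) : Ev D' c w := by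
  intro i n hn
  refine dvd_trans ?_ (h i n hn)
  apply pow_dvd_pow_of_dvd
  exact_mod_cast hd

theorem fwdDiff_iter_dvd {w : ℕ → ℤ} {P : ℤ} {y : ℕ} (h : ∀ x, y ≤ x → P ∣ w x) (m : ℕ) :
    P ∣ (fwdDiff 1)^[m] w y := by
  have key : ∀ (m : ℕ) (w : ℕ → ℤ), (∀ x, y ≤ x → P ∣ w x) → ∀ x, y ≤ x → P ∣ (fwdDiff 1)^[m] w x := by
    intro m
    induction m with
    | zero => intro w h; exact h
    | succ m ih =>
      intro w h x hx
      rw [Function.iterate_succ_apply]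
      apply ih _ _ x hx
      intro z hz
      simp only [fwdDiff]
      exact dvd_sub (h _ (by omega)) (h _ hz)
  exact key m w h y le_rfl

variable {p : ℕ} [hp : Fact p.Prime]

theorem choose_dvd {s n k : ℕ} (hs : p ^ s ∣ n) (hk : 1 ≤ k) : p ^ (s + 2) ∣ p ^ (2 * k) * n.choose k := by
  obtain ⟨v, m, hm, hkm⟩ := Nat.exists_eq_pow_mul_and_not_dvd (n := k) (by omega) p hp.out.ne_one
  have hcop : Nat.Coprime p m := (hp.out.coprime_iff_not_dvd).2 hm
  have hm0 : 0 < m := by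
    rcases Nat.eq_zero_or_pos m with h | h
    · exfalso; apply hm; rw [h]; exact dvd_zero p
    · exact h
  have h1 : p ^ s ∣ n.choose k * k := by
    rcases Nat.eq_zero_or_pos n with hn | hn
    · rw [hn, Nat.choose_eq_zero_of_lt (by omega), zero_mul]; exact dvd_zero _
    · obtain ⟨n', rfl⟩ : ∃ n', n = n' + 1 := ⟨n - 1, by omega⟩
      obtain ⟨k', rfl⟩ : ∃ k', k = k' + 1 := ⟨k - 1, by omega⟩
      rw [← Nat.add_one_mul_choose_eq]
      exact Dvd.dvd.mul_right hs _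
  have h2 : p ^ s ∣ n.choose k * p ^ v := by
    have h3 : p ^ s ∣ (n.choose k * p ^ v) * m := by
      rw [mul_assoc, ← hkm]; exact h1
    exact (hcop.pow_left s).dvd_of_dvd_mul_right h3
  have hv : v < k := by
    have h3 : v < p ^ v := Nat.lt_pow_self hp.out.one_lt
    have h4 : p ^ v ≤ k := by
      conv_rhs => rw [hkm]
      exact Nat.le_mul_of_pos_right _ hm0
    omega
  have e : p ^ (2 * k) * n.choose k = p ^ (2 * k - v) * (n.choose k * p ^ v) := by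
    have : p ^ (2 * k) = p ^ (2 * k - v) * p ^ v := by rw [← pow_add]; congr 1; omega
    rw [this]; ring
  rw [e, add_comm s 2, pow_add]
  exact mul_dvd_mul (pow_dvd_pow p (by omega)) h2

theorem Ev.congr {c : ℕ} {w : ℕ → ℤ} (h : Ev p c w) {T y n : ℕ} (hy : c * (T + 1) ≤ y) (hn : p ^ T ∣ n) :
    (p : ℤ) ^ (T + 2) ∣ w (y + n) - w y := by
  have h1 := shift_eq_sum_fwdDiff_iter 1 w n y
  simp only [smul_eq_mul, mul_one, nsmul_eq_mul] at h1
  rw [h1, sum_range_succ']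
  simp only [Nat.choose_zero_right, Nat.cast_one, one_mul, Function.iterate_zero, id_eq, add_sub_cancel_right]
  apply dvd_sum
  intro k _
  rcases Nat.lt_or_ge T (k + 1) with hk | hk
  · have h2 : ∀ x, y ≤ x → (p : ℤ) ^ (2 * (T + 1)) ∣ (fwdDiff 1)^[T + 1] w x := fun x hx => h _ x (hy.trans hx)
    have h3 := fwdDiff_iter_dvd h2 (k + 1 - (T + 1))
    rw [← Function.iterate_add_apply] at h3
    have e : k + 1 - (T + 1) + (T + 1) = k + 1 := by omega
    rw [e] at h3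
    exact Dvd.dvd.mul_left ((pow_dvd_pow _ (by omega)).trans h3) _
  · have h2 := h (k + 1) y ((Nat.mul_le_mul_left c (by omega)).trans hy)
    obtain ⟨z, hz⟩ := h2
    rw [hz]
    have h3 := choose_dvd hn (show 1 ≤ k + 1 by omega)
    have h4 : ((p : ℤ) ^ (T + 2)) ∣ (p : ℤ) ^ (2 * (k + 1)) * (n.choose (k + 1) : ℤ) := by exact_mod_cast h3
    have e : ((n.choose (k + 1) : ℕ) : ℤ) * ((p : ℤ) ^ (2 * (k + 1)) * z) =
      ((p : ℤ) ^ (2 * (k + 1)) * (n.choose (k + 1) : ℤ)) * z := by ring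
    rw [e]
    exact Dvd.dvd.mul_right h4 z

theorem dvd_lim {a : ℕ → ℤ_[p]} {L : ℤ_[p]} {k : ℕ} (h : Tendsto a atTop (nhds L))
    (hd : ∃ m0, ∀ m, m0 ≤ m → (p : ℤ_[p]) ^ k ∣ a m) : (p : ℤ_[p]) ^ k ∣ L := by
  apply dvd_norm
  obtain ⟨m0, hm0⟩ := hd
  apply le_of_tendsto h.norm
  filter_upwards [eventually_ge_atTop m0] with m hm
  exact norm_dvd (hm0 m hm)

theorem Ev.lim {c : ℕ} {w : ℕ → ℤ} (h : Ev p c w) : ∃ v : ℕ → ℤ_[p], An v ∧
    ∀ T n, c * (T + 1) ≤ n → (p : ℤ_[p]) ^ (T + 2) ∣ v n - ((w n : ℤ) : ℤ_[p]) := by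
  have hp1 : (1 : ℝ) < p := by exact_mod_cast hp.out.one_lt
  have hpm : ∀ m : ℕ, m + 1 ≤ p ^ m := fun m => Nat.lt_pow_self hp.out.one_lt
  have hC : ∀ x : ℕ, ∃ L : ℤ_[p], Tendsto (fun m => ((w (x + c * p ^ m) : ℤ) : ℤ_[p])) atTop (nhds L) := by
    intro x
    apply cauchySeq_tendsto_of_complete
    apply cauchySeq_of_le_geometric (p : ℝ)⁻¹ 1 (inv_lt_one_of_one_lt₀ hp1)
    intro m
    rw [dist_eq_norm, one_mul]
    apply norm_dvd
    rw [dvd_sub_comm]
    have h1 : (p : ℤ) ^ (m + 2) ∣ w ((x + c * p ^ m) + p ^ m * (c * (p - 1))) - w (x + c * p ^ m) := by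
      apply h.congr _ (dvd_mul_right _ _)
      have := Nat.mul_le_mul_left c (hpm m)
      omega
    have e : (x + c * p ^ m) + p ^ m * (c * (p - 1)) = x + c * p ^ (m + 1) := by
      obtain ⟨p', hp'⟩ : ∃ p', p = p' + 1 := ⟨p - 1, by have := hp.out.pos; omega⟩
      rw [hp', Nat.add_sub_cancel]; ring
    rw [e] at h1
    have h2 := (PadicInt.pow_p_dvd_int_iff (p := p) (m + 2) _).2 h1
    push_cast at h2
    exact (pow_dvd_pow _ (by omega)).trans h2
  choose v hv using hC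
  refine ⟨v, ?_, ?_⟩
  · intro i n
    have h1 : Tendsto (fun m => (((fwdDiff 1)^[i] w (n + c * p ^ m) : ℤ) : ℤ_[p])) atTop
        (nhds ((fwdDiff 1)^[i] v n)) := by
      rw [fwdDiff_iter_eq_sum_shift]
      have e : (fun m => (((fwdDiff 1)^[i] w (n + c * p ^ m) : ℤ) : ℤ_[p])) = fun m =>
          ∑ k ∈ range (i + 1), ((-1 : ℤ) ^ (i - k) * (i.choose k : ℤ)) • ((w ((n + k • 1) + c * p ^ m) : ℤ) : ℤ_[p]) := by
        ext m
        rw [fwdDiff_iter_eq_sum_shift]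
        rw [Int.cast_sum]
        apply sum_congr rfl
        intro k _
        have e2 : n + c * p ^ m + k • 1 = n + k • 1 + c * p ^ m := by simp; ring
        rw [e2]
        simp
      rw [e]
      apply tendsto_finsetSum
      intro k _
      exact (hv (n + k • 1)).const_smul _
    apply dvd_lim h1
    refine ⟨i, fun m hm => ?_⟩
    have h2 := h i (n + c * p ^ m) (by
      have h3 := Nat.mul_le_mul_left c (hpm m)
      have h4 := Nat.mul_le_mul_left c (show i ≤ m + 1 by omega)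
      omega)
    have h3 := (PadicInt.pow_p_dvd_int_iff (p := p) (2 * i) _).2 h2
    exact h3
  · intro T n hn
    have h1 : Tendsto (fun m => ((w (n + c * p ^ m) : ℤ) : ℤ_[p]) - ((w n : ℤ) : ℤ_[p])) atTop
        (nhds (v n - ((w n : ℤ) : ℤ_[p]))) := (hv n).sub_const _
    apply dvd_lim h1
    refine ⟨T, fun m hm => ?_⟩
    have h2 : (p : ℤ) ^ (T + 2) ∣ w (n + c * p ^ m) - w n := by
      apply h.congr hn
      exact Dvd.dvd.mul_left (pow_dvd_pow p hm) c
    have h3 := (PadicInt.pow_p_dvd_int_iff (p := p) (T + 2) _).2 h2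
    push_cast at h3
    exact h3

/-- The sequence is eventually constant modulo every power of `p`, i.e. it converges `p`-adically. -/
def Settles (p : ℕ) (w : ℕ → ℤ) : Prop := ∀ k : ℕ, ∃ x0 : ℕ, ∀ x, x0 ≤ x → (p : ℤ) ^ k ∣ w x - w x0

theorem ne_of_not_settles {c : ℕ} {w : ℕ → ℤ} {v : ℕ → ℤ_[p]}
    (hv : ∀ T n, c * (T + 1) ≤ n → (p : ℤ_[p]) ^ (T + 2) ∣ v n - ((w n : ℤ) : ℤ_[p])) (hns : ¬ Settles p w) :
    ∃ x y, v x ≠ v y := by
  by_contra hcon
  push Not at hcon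
  apply hns
  intro k
  refine ⟨c * (k + 1), fun x hx => ?_⟩
  have h1 := hv k x hx
  have h2 := hv k _ le_rfl
  rw [hcon x (c * (k + 1))] at h1
  have h3 := dvd_sub h2 h1
  have e : v (c * (k + 1)) - ((w (c * (k + 1)) : ℤ) : ℤ_[p]) - (v (c * (k + 1)) - ((w x : ℤ) : ℤ_[p])) =
    ((w x - w (c * (k + 1)) : ℤ) : ℤ_[p]) := by push_cast; ring
  rw [e, PadicInt.pow_p_dvd_int_iff] at h3
  exact (pow_dvd_pow _ (by omega)).trans h3

end Pool.Agent.J6H80.AP
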