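import Pool.Agent.J6H80.AP.Tot

/-!
The quadratic form of an arithmetic progression.
-/

set_option autoImplicit false

namespace Pool.Agent.J6H80.AP

open Finset
open Pool.Agent.H469R2.NK (e norm_e conj_e e_add)

/-- the geometric sum -/
noncomputable def Gs (M : ℕ) (θ : ℝ) : ℂ := ∑ i ∈ range M, e (i * θ)

theorem Gs_norm_le (M : ℕ) (θ : ℝ) : ‖Gs M θ‖ ≤ M := by
  unfold Gs
  refine (norm_sum_le _ _).trans ?_
  simp only [norm_e, sum_const, card_range, nsmul_eq_mul, mul_one, le_refl]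

theorem Gs_mul (M : ℕ) (θ : ℝ) : Gs M θ * (e θ - 1) = e (M * θ) - 1 := by
  induction M with
  | zero =>
    unfold Gs e
    simp
  | succ M ih =>
    have h1 : Gs (M + 1) θ = Gs M θ + e (M * θ) := by
      unfold Gs
      rw [sum_range_succ]
    have h2 : e (((M + 1 : ℕ) : ℝ) * θ) = e (M * θ) * e θ := by
      rw [← e_add]
      congr 1
      push_cast
      ring
    rw [h1, add_mul, ih, h2]
    ring

theorem norm_e_sub_one (θ : ℝ) : 4 * dn θ ≤ ‖e θ - 1‖ := by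
  have hpi := Real.pi_pos
  set x : ℝ := θ - round θ with hx
  have h1 : e θ = Complex.exp (Complex.I * ((2 * Real.pi * x : ℝ) : ℂ)) := by
    rw [← e_sub_int θ (round θ)]
    unfold e
    rw [mul_comm]
  have hx2 : |x| ≤ 1 / 2 := abs_sub_round θ
  rw [h1, Complex.norm_exp_I_mul_ofReal_sub_one, Real.norm_eq_abs, abs_mul, abs_of_pos (by norm_num : (0 : ℝ) < 2)]
  have h2 : |2 * Real.pi * x / 2| ≤ Real.pi / 2 := by
    have e1 : 2 * Real.pi * x / 2 = Real.pi * x := by ring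
    rw [e1, abs_mul, abs_of_pos hpi]
    nlinarith
  have h3 := Real.mul_abs_le_abs_sin h2
  have h4 : 2 / Real.pi * |2 * Real.pi * x / 2| = 2 * |x| := by
    have e1 : 2 * Real.pi * x / 2 = Real.pi * x := by ring
    rw [e1, abs_mul, abs_of_pos hpi]
    field_simp
  rw [h4] at h3
  have h5 : dn θ = |x| := rfl
  rw [h5]
  linarith

theorem Gs_le (M : ℕ) (θ : ℝ) (h : 0 < dn θ) : ‖Gs M θ‖ ≤ 1 / (2 * dn θ) := by
  have h1 := congrArg norm (Gs_mul M θ)
  rw [norm_mul] at h1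
  have h2 : ‖e (M * θ) - 1‖ ≤ 2 := by
    refine (norm_sub_le _ _).trans ?_
    rw [norm_e, norm_one]
    norm_num
  have h3 := norm_e_sub_one θ
  rw [le_div_iff₀ (by positivity)]
  have h4 : ‖Gs M θ‖ * (4 * dn θ) ≤ 2 := by
    calc ‖Gs M θ‖ * (4 * dn θ) ≤ ‖Gs M θ‖ * ‖e θ - 1‖ := by gcongr
      _ = ‖e (M * θ) - 1‖ := h1
      _ ≤ 2 := h2
  linarith

theorem form (N J : ℕ) (hJ : 1 ≤ J) (φ : ℕ → ℝ) (b : ℕ → ℂ) (Λ : ℝ)
    (hΛ : ∀ θ, ∑ n ∈ Icc 1 N, ‖Gs (2 * J) (φ n - θ)‖ ^ 2 ≤ Λ) :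
    ∑ j ∈ range J, ‖∑ n ∈ Icc 1 N, b n * e (j * φ n)‖ ^ 2 ≤ Λ / J * ∑ n ∈ Icc 1 N, ‖b n‖ ^ 2 := by
  classical
  have hJ0 : (0 : ℝ) < J := by exact_mod_cast hJ
  set A : ℝ → ℂ := fun x => ∑ n ∈ Icc 1 N, b n * e (x * φ n) with hA
  set K : ℕ → ℕ → ℝ := fun n m => ‖Gs (2 * J) (φ n - φ m)‖ ^ 2 with hK
  -- averaging
  have h1 : J * ∑ j ∈ range J, ‖A j‖ ^ 2 ≤ ∑ s ∈ range (2 * J), ∑ i ∈ range (2 * J), ‖A ((i : ℝ) - s)‖ ^ 2 := by
    calc J * ∑ j ∈ range J, ‖A j‖ ^ 2 = ∑ s ∈ range J, ∑ j ∈ range J, ‖A j‖ ^ 2 := by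
          rw [sum_const, card_range, nsmul_eq_mul]
      _ ≤ ∑ s ∈ range J, ∑ i ∈ range (2 * J), ‖A ((i : ℝ) - s)‖ ^ 2 := by
          apply sum_le_sum
          intro s hs
          rw [mem_range] at hs
          have h2 : ∑ j ∈ range J, ‖A j‖ ^ 2 = ∑ i ∈ (range J).image (fun j => j + s), ‖A ((i : ℝ) - s)‖ ^ 2 := by
            rw [sum_image (fun a _ b _ hab => Nat.add_right_cancel hab)]
            apply sum_congr rfl
            intro j _
            congr 3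
            push_cast
            ring
          rw [h2]
          apply sum_le_sum_of_subset_of_nonneg
          · intro i hi
            rw [mem_image] at hi
            obtain ⟨j, hj, rfl⟩ := hi
            rw [mem_range] at hj ⊢
            omega
          · intro _ _ _
            positivity
      _ ≤ ∑ s ∈ range (2 * J), ∑ i ∈ range (2 * J), ‖A ((i : ℝ) - s)‖ ^ 2 := by
          apply sum_le_sum_of_subset_of_nonneg
          · intro s hs
            rw [mem_range] at hs ⊢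
            omega
          · intro _ _ _
            exact sum_nonneg fun _ _ => by positivity
  -- expanding the square
  have h2 : ((∑ s ∈ range (2 * J), ∑ i ∈ range (2 * J), ‖A ((i : ℝ) - s)‖ ^ 2 : ℝ) : ℂ) =
      ∑ n ∈ Icc 1 N, ∑ m ∈ Icc 1 N, b n * (starRingEnd ℂ) (b m) * ((K n m : ℝ) : ℂ) := by
    have e1 : ∀ x : ℝ, ((‖A x‖ ^ 2 : ℝ) : ℂ) = ∑ n ∈ Icc 1 N, ∑ m ∈ Icc 1 N,
        b n * (starRingEnd ℂ) (b m) * e (x * (φ n - φ m)) := by
      intro x
      push_cast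
      rw [← Complex.mul_conj']
      simp only [hA]
      rw [map_sum, sum_mul_sum]
      apply sum_congr rfl
      intro n _
      apply sum_congr rfl
      intro m _
      rw [map_mul, conj_e]
      have e2 : e (x * (φ n - φ m)) = e (x * φ n) * e (-(x * φ m)) := by
        rw [← e_add]
        congr 1
        ring
      rw [e2]
      ring
    have e3 : ∀ x : ℝ, ∑ s ∈ range (2 * J), ∑ i ∈ range (2 * J), e (((i : ℝ) - s) * x) =
        ((‖Gs (2 * J) x‖ ^ 2 : ℝ) : ℂ) := by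
      intro x
      push_cast
      rw [← Complex.mul_conj']
      unfold Gs
      rw [map_sum, sum_mul_sum, sum_comm]
      apply sum_congr rfl
      intro i _
      apply sum_congr rfl
      intro s _
      rw [conj_e, ← e_add]
      congr 1
      ring
    rw [Complex.ofReal_sum]
    simp only [Complex.ofReal_sum]
    calc ∑ s ∈ range (2 * J), ∑ i ∈ range (2 * J), ((‖A ((i : ℝ) - s)‖ ^ 2 : ℝ) : ℂ)
        = ∑ s ∈ range (2 * J), ∑ i ∈ range (2 * J), ∑ n ∈ Icc 1 N, ∑ m ∈ Icc 1 N,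
            b n * (starRingEnd ℂ) (b m) * e (((i : ℝ) - s) * (φ n - φ m)) := by
          apply sum_congr rfl
          intro s _
          apply sum_congr rfl
          intro i _
          exact e1 _
      _ = ∑ n ∈ Icc 1 N, ∑ m ∈ Icc 1 N, ∑ s ∈ range (2 * J), ∑ i ∈ range (2 * J),
            b n * (starRingEnd ℂ) (b m) * e (((i : ℝ) - s) * (φ n - φ m)) := by
          have c1 : ∀ s ∈ range (2 * J), ∑ i ∈ range (2 * J), ∑ n ∈ Icc 1 N, ∑ m ∈ Icc 1 N,
              b n * (starRingEnd ℂ) (b m) * e (((i : ℝ) - s) * (φ n - φ m)) =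
              ∑ n ∈ Icc 1 N, ∑ m ∈ Icc 1 N, ∑ i ∈ range (2 * J),
              b n * (starRingEnd ℂ) (b m) * e (((i : ℝ) - s) * (φ n - φ m)) := by
            intro s _
            rw [sum_comm]
            apply sum_congr rfl
            intro n _
            rw [sum_comm]
          rw [sum_congr rfl c1, sum_comm]
          apply sum_congr rfl
          intro n _
          rw [sum_comm]
      _ = _ := by
          apply sum_congr rfl
          intro n _
          apply sum_congr rfl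
          intro m _
          simp only [← mul_sum]
          rw [e3]
  -- the norm
  have h3 : ∑ s ∈ range (2 * J), ∑ i ∈ range (2 * J), ‖A ((i : ℝ) - s)‖ ^ 2 ≤
      ∑ n ∈ Icc 1 N, ∑ m ∈ Icc 1 N, ‖b n‖ * ‖b m‖ * K n m := by
    have e1 : ∑ s ∈ range (2 * J), ∑ i ∈ range (2 * J), ‖A ((i : ℝ) - s)‖ ^ 2 ≤
        ‖((∑ s ∈ range (2 * J), ∑ i ∈ range (2 * J), ‖A ((i : ℝ) - s)‖ ^ 2 : ℝ) : ℂ)‖ := by
      rw [Complex.norm_real]
      exact le_abs_self _
    refine e1.trans ?_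
    rw [h2]
    refine (norm_sum_le _ _).trans (sum_le_sum fun n _ => (norm_sum_le _ _).trans (sum_le_sum fun m _ => ?_))
    have hcb : ‖(starRingEnd ℂ) (b m)‖ = ‖b m‖ := RCLike.norm_conj _
    rw [norm_mul, norm_mul, hcb, Complex.norm_real, Real.norm_eq_abs, abs_of_nonneg (by simp only [hK]; positivity)]
  have hsym : ∀ n m, K n m = K m n := by
    intro n m
    simp only [hK]
    congr 1
    unfold Gs
    rw [← RCLike.norm_conj, map_sum]
    congr 1
    apply sum_congr rfl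
    intro i _
    rw [conj_e]
    congr 1
    ring
  have hK0 : ∀ n m, 0 ≤ K n m := fun n m => by simp only [hK]; positivity
  have h4 : ∑ n ∈ Icc 1 N, ∑ m ∈ Icc 1 N, ‖b n‖ * ‖b m‖ * K n m ≤ Λ * ∑ m ∈ Icc 1 N, ‖b m‖ ^ 2 := by
    have e1 : ∑ n ∈ Icc 1 N, ∑ m ∈ Icc 1 N, ‖b n‖ * ‖b m‖ * K n m ≤
        ∑ n ∈ Icc 1 N, ∑ m ∈ Icc 1 N, (‖b n‖ ^ 2 / 2 * K n m + ‖b m‖ ^ 2 / 2 * K n m) := by
      apply sum_le_sum
      intro n _
      apply sum_le_sum
      intro m _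
      rw [← add_mul]
      apply mul_le_mul_of_nonneg_right _ (hK0 n m)
      nlinarith [sq_nonneg (‖b n‖ - ‖b m‖)]
    have e2 : ∑ n ∈ Icc 1 N, ∑ m ∈ Icc 1 N, (‖b n‖ ^ 2 / 2 * K n m + ‖b m‖ ^ 2 / 2 * K n m) =
        ∑ m ∈ Icc 1 N, ‖b m‖ ^ 2 * ∑ n ∈ Icc 1 N, K n m := by
      have e3 : ∑ n ∈ Icc 1 N, ∑ m ∈ Icc 1 N, ‖b n‖ ^ 2 / 2 * K n m =
          ∑ m ∈ Icc 1 N, ∑ n ∈ Icc 1 N, ‖b m‖ ^ 2 / 2 * K n m := by
        apply sum_congr rfl
        intro n _
        apply sum_congr rfl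
        intro m _
        rw [hsym n m]
      have e4 : ∑ n ∈ Icc 1 N, ∑ m ∈ Icc 1 N, ‖b m‖ ^ 2 / 2 * K n m =
          ∑ m ∈ Icc 1 N, ∑ n ∈ Icc 1 N, ‖b m‖ ^ 2 / 2 * K n m := sum_comm
      simp only [sum_add_distrib]
      rw [e3, e4, ← sum_add_distrib]
      apply sum_congr rfl
      intro m _
      rw [← mul_sum]
      ring
    refine e1.trans ?_
    rw [e2, mul_sum]
    apply sum_le_sum
    intro m _
    rw [mul_comm Λ]
    exact mul_le_mul_of_nonneg_left (hΛ (φ m)) (by positivity)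
  have h5 := (h1.trans h3).trans h4
  rw [div_mul_eq_mul_div, le_div_iff₀ hJ0]
  linarith

/-- the sum of the kernel -/
theorem row (N J : ℕ) (hJ : 1 ≤ J) (φ : ℕ → ℝ) (U E : ℝ) (hE : 0 ≤ E) (hU : 0 ≤ U)
    (hc : ∀ θ ρ : ℝ, 1 / (J : ℝ) ≤ ρ → (((Icc 1 N).filter (fun n => dn (φ n - θ) ≤ ρ)).card : ℝ) ≤ U * ρ + E) (θ : ℝ) :
    ∑ n ∈ Icc 1 N, ‖Gs (2 * J) (φ n - θ)‖ ^ 2 ≤ 8 * J * (U + J * E) := by
  classical
  have hJ0 : (0 : ℝ) < J := by exact_mod_cast hJ
  -- pointwise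
  have h1 : ∀ x : ℝ, ‖Gs (2 * J) x‖ ^ 2 ≤
      ∑ i ∈ range (J + 1), 4 * (J : ℝ) ^ 2 * (1 / 4) ^ i * (if dn x ≤ 2 ^ i / J then 1 else 0) := by
    intro x
    have hex : ∃ i, dn x ≤ 2 ^ i / (J : ℝ) := ⟨J, by
      have h2 := dn_le_half x
      have h3 : (J : ℝ) ≤ 2 ^ J := by exact_mod_cast Nat.lt_two_pow_self.le
      rw [le_div_iff₀ hJ0]
      nlinarith⟩
    set i0 := Nat.find hex with hi0
    have h2 : dn x ≤ 2 ^ i0 / (J : ℝ) := Nat.find_spec hex
    have hiJ : i0 ≤ J := by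
      apply Nat.find_min'
      have h2 := dn_le_half x
      have h3 : (J : ℝ) ≤ 2 ^ J := by exact_mod_cast Nat.lt_two_pow_self.le
      rw [le_div_iff₀ hJ0]
      nlinarith
    have h3 : ‖Gs (2 * J) x‖ ^ 2 ≤ 4 * (J : ℝ) ^ 2 * (1 / 4) ^ i0 := by
      rcases Nat.eq_zero_or_pos i0 with h4 | h4
      · rw [h4, pow_zero, mul_one]
        have h5 := Gs_norm_le (2 * J) x
        push_cast at h5
        calc ‖Gs (2 * J) x‖ ^ 2 ≤ (2 * J : ℝ) ^ 2 := pow_le_pow_left₀ (norm_nonneg _) h5 2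
          _ = _ := by ring
      · have h5 : ¬ dn x ≤ 2 ^ (i0 - 1) / (J : ℝ) := Nat.find_min hex (by omega)
        rw [not_le] at h5
        have h6 : 0 < (2 : ℝ) ^ (i0 - 1) / J := by positivity
        have h7 := Gs_le (2 * J) x (h6.trans h5)
        have h8 : ‖Gs (2 * J) x‖ ≤ J / 2 ^ i0 := by
          refine h7.trans ?_
          rw [div_le_div_iff₀ (by linarith) (by positivity)]
          rw [div_lt_iff₀ hJ0] at h5
          have h9 : (2 : ℝ) ^ i0 = 2 * 2 ^ (i0 - 1) := by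
            rw [← pow_succ']
            congr 1
            omega
          rw [h9]
          linarith
        calc ‖Gs (2 * J) x‖ ^ 2 ≤ (J / 2 ^ i0) ^ 2 := pow_le_pow_left₀ (norm_nonneg _) h8 2
          _ = (J : ℝ) ^ 2 * (1 / 4) ^ i0 := by
              rw [div_pow, div_pow, one_pow, ← pow_mul, mul_comm i0 2, pow_mul]
              norm_num
              ring
          _ ≤ 4 * (J : ℝ) ^ 2 * (1 / 4) ^ i0 := by
              have : 0 ≤ (J : ℝ) ^ 2 * (1 / 4) ^ i0 := by positivity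
              linarith
    refine h3.trans ?_
    have h4 : ∀ i ∈ range (J + 1), 0 ≤ 4 * (J : ℝ) ^ 2 * (1 / 4) ^ i * (if dn x ≤ 2 ^ i / J then (1 : ℝ) else 0) := by
      intro i _
      split_ifs <;> positivity
    refine le_trans ?_ (single_le_sum h4 (mem_range.2 (by omega : i0 < J + 1)))
    rw [if_pos h2, mul_one]
  calc ∑ n ∈ Icc 1 N, ‖Gs (2 * J) (φ n - θ)‖ ^ 2
      ≤ ∑ n ∈ Icc 1 N, ∑ i ∈ range (J + 1), 4 * (J : ℝ) ^ 2 * (1 / 4) ^ i *
          (if dn (φ n - θ) ≤ 2 ^ i / J then 1 else 0) := sum_le_sum fun n _ => h1 _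
    _ = ∑ i ∈ range (J + 1), 4 * (J : ℝ) ^ 2 * (1 / 4) ^ i *
          (((Icc 1 N).filter (fun n => dn (φ n - θ) ≤ 2 ^ i / J)).card : ℝ) := by
        rw [sum_comm]
        apply sum_congr rfl
        intro i _
        rw [← mul_sum]
        congr 1
        simp
    _ ≤ ∑ i ∈ range (J + 1), 4 * (J : ℝ) ^ 2 * (1 / 4) ^ i * (U * (2 ^ i / J) + E) := by
        apply sum_le_sum
        intro i _
        apply mul_le_mul_of_nonneg_left _ (by positivity)
        apply hc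
        apply div_le_div_of_nonneg_right _ hJ0.le
        exact one_le_pow₀ (by norm_num)
    _ ≤ ∑ i ∈ range (J + 1), (1 / 2 : ℝ) ^ i * (4 * J * (U + J * E)) := by
        apply sum_le_sum
        intro i _
        have e1 : (1 / 4 : ℝ) ^ i * 2 ^ i = (1 / 2) ^ i := by
          rw [← mul_pow]; norm_num
        have e2 : 4 * (J : ℝ) ^ 2 * (1 / 4) ^ i * (U * (2 ^ i / J) + E) =
            4 * J * U * ((1 / 4 : ℝ) ^ i * 2 ^ i) + 4 * (J : ℝ) ^ 2 * E * (1 / 4) ^ i := by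
          field_simp
        rw [e2, e1]
        have e3 : (1 / 4 : ℝ) ^ i ≤ (1 / 2) ^ i := pow_le_pow_left₀ (by norm_num) (by norm_num) i
        have e4 : 4 * (J : ℝ) ^ 2 * E * (1 / 4) ^ i ≤ 4 * (J : ℝ) ^ 2 * E * (1 / 2) ^ i := by gcongr
        nlinarith
    _ ≤ 2 * (4 * J * (U + J * E)) := by
        rw [← sum_mul]
        apply mul_le_mul_of_nonneg_right _ (by positivity)
        have := geom_sum_eq (x := (1 / 2 : ℝ)) (by norm_num) (J + 1)
        rw [this]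
        have h2 : 0 < (1 / 2 : ℝ) ^ (J + 1) := by positivity
        rw [div_le_iff_of_neg (by norm_num)]
        linarith
    _ = _ := by ring

end Pool.Agent.J6H80.AP
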