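import Pool.Agent.J6H80.AP.Blk
import Pool.Agent.R327.SIFin

/-!
Counting in `[1, N]`.
-/

set_option autoImplicit false

namespace Pool.Agent.J6H80.AP

open Finset
open Pool.Agent.R327.SI (lg_pow)

/-- the number of the blocks -/
theorem log_blocks (N : ℕ) (hN : 1 ≤ N) : ((Nat.log 2 N + 1 : ℕ) : ℝ) ≤ 2 * (1 + Real.log (2 * N)) := by
  have hN1 : (1 : ℝ) ≤ N := by exact_mod_cast hN
  have h1 : (2 : ℝ) ^ (Nat.log 2 N) ≤ N := by exact_mod_cast Nat.pow_log_le_self 2 (by omega)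
  have h2 := Real.log_le_log (by positivity) h1
  rw [Real.log_pow] at h2
  have h3 := Real.log_two_gt_d9
  have h4 : (0 : ℝ) ≤ (Nat.log 2 N : ℝ) := Nat.cast_nonneg _
  have h5 : (Nat.log 2 N : ℝ) ≤ 2 * Real.log N := by nlinarith
  have h6 : Real.log N ≤ Real.log (2 * N) := Real.log_le_log (by linarith) (by linarith)
  push_cast
  linarith

/-- **The count.** -/
theorem total_count (B μ : ℝ) (hB : 1 ≤ B) (hμ : 0 < μ) (hμ1 : μ ≤ 1) : ∃ c C : ℝ, 0 < c ∧ c ≤ 1 / 2 ∧ 1 ≤ C ∧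
    ∀ (N J : ℕ) (δ θ ρ : ℝ), 1 ≤ N → 1 ≤ J → 1 ≤ δ → (N : ℝ) ^ μ ≤ δ → J * δ ≤ δ ^ B → 1 / (J : ℝ) ≤ ρ →
      (((Icc 1 N).filter (fun n => dn (th δ n - θ) ≤ ρ)).card : ℝ) ≤ C * (N * ρ + δ ^ (1 - c)) := by
  classical
  obtain ⟨Q, hQ⟩ : ∃ Q : ℕ, Q = ⌈B⌉₊ + 1 := ⟨_, rfl⟩
  have hQ1 : 1 ≤ Q := by omega
  have hQA : B ≤ Q := by
    have h1 := Nat.le_ceil B
    rw [hQ]
    push_cast
    linarith
  obtain ⟨η, hη, hη1, C0, hC0, hblk⟩ := block_count Q hQ1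
  obtain ⟨c, hc⟩ : ∃ c : ℝ, c = η / 4 := ⟨_, rfl⟩
  obtain ⟨C2, hC2, hlg⟩ := lg_pow 1 (μ * c) (by norm_num) (by rw [hc]; positivity)
  have hc0 : 0 < c := by rw [hc]; positivity
  have hc2 : c ≤ 1 / 2 := by rw [hc]; linarith
  set D : ℝ := (20 : ℝ) ^ (1 / μ) with hD
  have hD1 : 1 ≤ D := Real.one_le_rpow (by norm_num) (by positivity)
  have hC : 1 ≤ D + 4 + C0 * 4 + 2 * C2 * (C0 + 2) := by
    have : 0 ≤ 2 * C2 * (C0 + 2) := by positivity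
    linarith
  refine ⟨c, D + 4 + C0 * 4 + 2 * C2 * (C0 + 2), hc0, hc2, hC, ?_⟩
  intro N J δ θ ρ hN hJ hδ1 hNδ hJδ hρ
  have hN1 : (1 : ℝ) ≤ N := by exact_mod_cast hN
  have hN0 : (0 : ℝ) < N := by linarith
  have hJ1 : (1 : ℝ) ≤ J := by exact_mod_cast hJ
  have hJ0 : (0 : ℝ) < J := by linarith
  have hρ0 : 0 < ρ := lt_of_lt_of_le (by positivity) hρ
  have hδ0 : 0 < δ := by linarith
  have hδc : 1 ≤ δ ^ (1 - c) := Real.one_le_rpow hδ1 (by linarith)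
  have htriv : (((Icc 1 N).filter (fun n => dn (th δ n - θ) ≤ ρ)).card : ℝ) ≤ N := by
    have := card_filter_le (Icc 1 N) (fun n => dn (th δ n - θ) ≤ ρ)
    rw [Nat.card_Icc, Nat.add_sub_cancel] at this
    exact_mod_cast this
  have hNρ : 0 ≤ (N : ℝ) * ρ := by positivity
  have hC2' : 0 ≤ 2 * C2 * (C0 + 2) := by positivity
  rcases lt_or_ge δ 20 with hδ2 | hδ2
  · -- bounded `N`
    have h1 : (N : ℝ) ≤ D := by
      calc (N : ℝ) = ((N : ℝ) ^ μ) ^ (1 / μ) := by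
            rw [← Real.rpow_mul hN0.le, mul_one_div_cancel hμ.ne', Real.rpow_one]
        _ ≤ D := Real.rpow_le_rpow (by positivity) (hNδ.trans hδ2.le) (by positivity)
    refine htriv.trans (h1.trans ?_)
    have h2 : 0 ≤ (4 + C0 * 4 + 2 * C2 * (C0 + 2)) * (N * ρ + δ ^ (1 - c)) := by positivity
    have h3 : D * 1 ≤ D * (N * ρ + δ ^ (1 - c)) := by
      apply mul_le_mul_of_nonneg_left _ (by linarith)
      linarith
    nlinarith
  rcases lt_or_ge (1 / 4) ρ with hρ1 | hρ1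
  · -- large `ρ`
    have h1 : (N : ℝ) ≤ 4 * (N * ρ) := by nlinarith
    refine htriv.trans (h1.trans ?_)
    have h2 : 0 ≤ (D + C0 * 4 + 2 * C2 * (C0 + 2)) * (N * ρ + δ ^ (1 - c)) := by positivity
    nlinarith
  -- the blocks
  have hδρ : δ / ρ ≤ δ ^ Q := by
    calc δ / ρ ≤ J * δ := by
          rw [div_le_iff₀ hρ0]
          rw [div_le_iff₀ hJ0] at hρ
          nlinarith
      _ ≤ δ ^ B := hJδ
      _ ≤ δ ^ (Q : ℝ) := Real.rpow_le_rpow_of_exponent_le hδ1 hQA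
      _ = δ ^ Q := Real.rpow_natCast _ _
  set F : Finset ℕ := (Icc 1 N).filter (fun n => dn (th δ n - θ) ≤ ρ) with hF
  set F' : ℕ → Finset ℕ := fun b => (Ico (2 ^ b) (2 * 2 ^ b)).filter (fun n => dn (th δ n - θ) ≤ ρ) with hF'
  have hcover : F ⊆ (range (Nat.log 2 N + 1)).biUnion F' := by
    intro n hn
    rw [hF, mem_filter, mem_Icc] at hn
    rw [mem_biUnion]
    refine ⟨Nat.log 2 n, ?_, ?_⟩
    · rw [mem_range]
      have := Nat.log_mono_right (b := 2) hn.1.2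
      omega
    · simp only [hF']
      rw [mem_filter, mem_Ico]
      refine ⟨⟨Nat.pow_log_le_self 2 (by omega), ?_⟩, hn.2⟩
      have := Nat.lt_pow_succ_log_self (b := 2) (by norm_num) n
      rw [pow_succ] at this
      omega
  have hB : ∀ b ∈ range (Nat.log 2 N + 1), ((F' b).card : ℝ) ≤
      C0 * ρ * 2 ^ b + (C0 * δ ^ (1 - η) + (2 * δ) ^ (1 / 2 : ℝ)) := by
    intro b _
    have hδη : 0 ≤ δ ^ (1 - η) := by positivity
    rcases le_or_gt ((2 * δ) ^ (1 / 2 : ℝ)) ((2 : ℝ) ^ b) with h1 | h1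
    · have h2 := hblk δ θ ρ (2 ^ b) hδ2 Nat.one_le_two_pow hρ0 hρ1 (by push_cast; exact h1) hδρ
      have h3 : 0 ≤ (2 * δ) ^ (1 / 2 : ℝ) := by positivity
      push_cast at h2
      calc ((F' b).card : ℝ) ≤ C0 * (2 ^ b * ρ + δ ^ (1 - η)) := h2
        _ ≤ _ := by linarith
    · have h2 : ((F' b).card : ℝ) ≤ (2 : ℝ) ^ b := by
        have h3 : (F' b).card ≤ 2 ^ b := by
          have h4 := card_filter_le (Ico (2 ^ b) (2 * 2 ^ b)) (fun n => dn (th δ n - θ) ≤ ρ)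
          rw [Nat.card_Ico] at h4
          have h5 : 2 * 2 ^ b - 2 ^ b = 2 ^ b := by omega
          rw [h5] at h4
          exact h4
        exact_mod_cast h3
      have h3 : 0 ≤ C0 * ρ * 2 ^ b := by positivity
      have h4 : 0 ≤ C0 * δ ^ (1 - η) := by positivity
      linarith
  have h1 : (F.card : ℝ) ≤ ∑ b ∈ range (Nat.log 2 N + 1), ((F' b).card : ℝ) := by
    have h2 := (card_le_card hcover).trans card_biUnion_le
    exact_mod_cast h2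
  have hgeo : ∑ b ∈ range (Nat.log 2 N + 1), (2 : ℝ) ^ b ≤ 2 * N := by
    have h2 : ∑ b ∈ range (Nat.log 2 N + 1), 2 ^ b ≤ 2 * N := by
      have h3 := Nat.geomSum_eq (m := 2) (by norm_num) (Nat.log 2 N + 1)
      have h4 := Nat.pow_log_le_self 2 (x := N) (by omega)
      rw [h3, pow_succ]
      norm_num
      omega
    exact_mod_cast h2
  have hE1 : δ ^ (1 - η) ≤ δ ^ (1 - 2 * c) * 1 := by
    rw [mul_one]
    exact Real.rpow_le_rpow_of_exponent_le hδ1 (by rw [hc]; linarith)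
  have hE2 : (2 * δ) ^ (1 / 2 : ℝ) ≤ 2 * δ ^ (1 - 2 * c) := by
    calc (2 * δ) ^ (1 / 2 : ℝ) = 2 ^ (1 / 2 : ℝ) * δ ^ (1 / 2 : ℝ) := Real.mul_rpow (by norm_num) hδ0.le
      _ ≤ 2 * δ ^ (1 - 2 * c) := by
          have h2 : (2 : ℝ) ^ (1 / 2 : ℝ) ≤ 2 := by
            calc (2 : ℝ) ^ (1 / 2 : ℝ) ≤ 2 ^ (1 : ℝ) := Real.rpow_le_rpow_of_exponent_le (by norm_num) (by norm_num)
              _ = 2 := Real.rpow_one _
          have h3 : δ ^ (1 / 2 : ℝ) ≤ δ ^ (1 - 2 * c) :=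
            Real.rpow_le_rpow_of_exponent_le hδ1 (by rw [hc]; linarith)
          gcongr
  have hlogN : ((Nat.log 2 N + 1 : ℕ) : ℝ) ≤ 2 * C2 * δ ^ c := by
    refine (log_blocks N hN).trans ?_
    have h2 := hlg N hN
    rw [Real.rpow_one] at h2
    have h3 : (N : ℝ) ^ (μ * c) ≤ δ ^ c := by
      rw [Real.rpow_mul hN0.le]
      exact Real.rpow_le_rpow (by positivity) hNδ hc0.le
    calc 2 * (1 + Real.log (2 * N)) ≤ 2 * (C2 * (N : ℝ) ^ (μ * c)) := by gcongr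
      _ ≤ 2 * (C2 * δ ^ c) := by gcongr
      _ = _ := by ring
  have hfin : (F.card : ℝ) ≤ C0 * 2 * (N * ρ) + 2 * C2 * (C0 + 2) * δ ^ (1 - c) := by
    calc (F.card : ℝ) ≤ ∑ b ∈ range (Nat.log 2 N + 1), (C0 * ρ * 2 ^ b + (C0 * δ ^ (1 - η) + (2 * δ) ^ (1 / 2 : ℝ))) :=
          h1.trans (sum_le_sum hB)
      _ = C0 * ρ * ∑ b ∈ range (Nat.log 2 N + 1), (2 : ℝ) ^ b +
          ((Nat.log 2 N + 1 : ℕ) : ℝ) * (C0 * δ ^ (1 - η) + (2 * δ) ^ (1 / 2 : ℝ)) := by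
          rw [sum_add_distrib, ← mul_sum, sum_const, card_range, nsmul_eq_mul]
      _ ≤ C0 * ρ * (2 * N) + (2 * C2 * δ ^ c) * (C0 * (δ ^ (1 - 2 * c) * 1) + 2 * δ ^ (1 - 2 * c)) := by
          gcongr
      _ = C0 * 2 * (N * ρ) + 2 * C2 * (C0 + 2) * (δ ^ c * δ ^ (1 - 2 * c)) := by ring
      _ = _ := by
          rw [← Real.rpow_add hδ0]
          congr 3
          ring
  refine hfin.trans ?_
  have h2 : 0 ≤ D + 4 := by linarith
  have h3 : 0 ≤ (D + 4) * (N * ρ + δ ^ (1 - c)) := by positivity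
  have h4 : 0 ≤ δ ^ (1 - c) := by linarith
  have h5 : 0 ≤ C0 * (N * ρ) := by positivity
  have h6 : 0 ≤ C0 * δ ^ (1 - c) := by positivity
  have h7 : 0 ≤ 2 * C2 * (C0 + 2) * (N * ρ) := by positivity
  nlinarith

end Pool.Agent.J6H80.AP
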