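import Pool.Agent.J6H80.AP.Sob

/-!
Points near arithmetic progressions in `[0, T]`.
-/

set_option autoImplicit false

namespace Pool.Agent.J6H80.AP

open Finset
open Pool.Agent.TH705.DL (ph DP Sep)
open Pool.Agent.R327.SI (lg_pow)

theorem geo (N : ℕ) (hN : 1 ≤ N) : ∑ b ∈ range (Nat.log 2 N + 1), (2 : ℝ) ^ (b + 1) ≤ 4 * N := by
  have h2 : ∑ b ∈ range (Nat.log 2 N + 1), 2 ^ b ≤ 2 * N := by
    have h3 := Nat.geomSum_eq (m := 2) (by norm_num) (Nat.log 2 N + 1)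
    have h4 := Nat.pow_log_le_self 2 (x := N) (by omega)
    rw [h3, pow_succ]
    norm_num
    omega
  have h3 : ∑ b ∈ range (Nat.log 2 N + 1), (2 : ℝ) ^ b ≤ 2 * N := by exact_mod_cast h2
  have h4 : ∑ b ∈ range (Nat.log 2 N + 1), (2 : ℝ) ^ (b + 1) = 2 * ∑ b ∈ range (Nat.log 2 N + 1), (2 : ℝ) ^ b := by
    rw [mul_sum]
    apply sum_congr rfl
    intro b _
    rw [pow_succ]
    ring
  rw [h4]
  linarith

/-- points near one progression -/
theorem one_prog (A μ : ℝ) (hA : 1 ≤ A) (hμ : 0 < μ) (hμ1 : μ ≤ 1) : ∃ c C : ℝ, 0 < c ∧ 1 ≤ C ∧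
    ∀ (N : ℕ) (T δ x : ℝ) (a : ℕ → ℂ) (S : Finset ℝ), 1 ≤ N → 0 ≤ T → T ≤ (N : ℝ) ^ A → (N : ℝ) ^ μ ≤ δ →
      (∀ t ∈ S, 0 ≤ t ∧ t ≤ T) → Sep S → (∀ t ∈ S, ∃ k : ℤ, |t - (x + k * δ)| ≤ 1) →
      ∑ t ∈ S, ‖DP N a t‖ ^ 2 ≤ C * (N + T * (N : ℝ) ^ (-c)) * ∑ n ∈ Icc 1 N, ‖a n‖ ^ 2 := by
  have hB : 1 ≤ (A + 3) / μ := by
    rw [le_div_iff₀ hμ]
    linarith
  obtain ⟨c0, C0, hc0, hc1, hC0, htot⟩ := total_count ((A + 3) / μ) μ hB hμ hμ1
  obtain ⟨c, hc⟩ : ∃ c : ℝ, c = μ * c0 / 2 := ⟨_, rfl⟩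
  have hcp : 0 < c := by rw [hc]; positivity
  obtain ⟨C2, hC2, hlg⟩ := lg_pow 1 c (by norm_num) hcp
  refine ⟨c, 72 * C0 * (4 + 8 * C2), hcp, ?_, ?_⟩
  · nlinarith
  intro N T δ x a S hN hT0 hT hNδ hS hsep hx
  have hN1 : (1 : ℝ) ≤ N := by exact_mod_cast hN
  have hN0 : (0 : ℝ) < N := by linarith
  have hC2' : (0 : ℝ) ≤ C0 * C2 := by positivity
  set Wa := ∑ n ∈ Icc 1 N, ‖a n‖ ^ 2 with hW
  have hW0 : 0 ≤ Wa := sum_nonneg fun _ _ => by positivity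
  have hTN : 0 ≤ T * (N : ℝ) ^ (-c) := by positivity
  have hδ1 : 1 ≤ δ := le_trans (Real.one_le_rpow hN1 hμ.le) hNδ
  have hδ0 : 0 < δ := by linarith
  -- the case `N = 1`
  rcases Nat.eq_or_lt_of_le hN with hN2 | hN2
  · have h1 := Pool.Agent.TH705.DL.block N hN a S hsep 0 1 (by norm_num) (by
      intro t ht
      have h2 := hS t ht
      rw [← hN2] at hT
      simp only [Nat.cast_one, Real.one_rpow] at hT
      exact ⟨h2.1, h2.2.trans hT⟩)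
    refine h1.trans ?_
    apply mul_le_mul_of_nonneg_right _ hW0
    rw [← hN2] at hTN ⊢
    simp only [Nat.cast_one, Real.log_one] at hTN ⊢
    nlinarith [mul_nonneg (by positivity : (0 : ℝ) ≤ 72 * C0 * (4 + 8 * C2)) hTN]
  have hN2' : (2 : ℝ) ≤ N := by exact_mod_cast hN2
  -- the progression
  set k0 : ℤ := ⌈(-1 - x) / δ⌉ with hk0
  set J : ℕ := ⌊(T + 2) / δ⌋₊ + 1 with hJ
  have hJ1 : 1 ≤ J := by omega
  have hnear : ∀ t ∈ S, ∃ j < J, |t - ((x + k0 * δ) + j * δ)| ≤ 1 := by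
    intro t ht
    obtain ⟨k, hk⟩ := hx t ht
    obtain ⟨h1, h2⟩ := hS t ht
    rw [abs_le] at hk
    have h3 : k0 ≤ k := by
      rw [hk0, Int.ceil_le, div_le_iff₀ hδ0]
      linarith [hk.2]
    obtain ⟨j, hj⟩ : ∃ j : ℕ, k = k0 + j := ⟨(k - k0).toNat, by omega⟩
    refine ⟨j, ?_, ?_⟩
    · have h4 : (-1 - x) / δ ≤ k0 := Int.le_ceil _
      rw [div_le_iff₀ hδ0] at h4
      have h5 : (j : ℝ) ≤ (T + 2) / δ := by
        rw [le_div_iff₀ hδ0]
        have h6 : (k : ℝ) = k0 + j := by rw [hj]; push_cast; ring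
        rw [h6] at hk
        nlinarith [hk.1]
      have h6 : j ≤ ⌊(T + 2) / δ⌋₊ := Nat.le_floor h5
      omega
    · have h6 : (k : ℝ) = k0 + j := by rw [hj]; push_cast; ring
      rw [h6] at hk
      rw [abs_le]
      constructor <;> nlinarith [hk.1, hk.2]
  have hNb : ∀ b : ℕ, ((min N (2 ^ (b + 1)) : ℕ) : ℝ) ≤ (2 : ℝ) ^ (b + 1) := by
    intro b
    exact_mod_cast min_le_right N (2 ^ (b + 1))
  have hNb1 : ∀ b : ℕ, 1 ≤ min N (2 ^ (b + 1)) := fun b => le_min hN Nat.one_le_two_pow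
  have hNb0 : ∀ b : ℕ, (0 : ℝ) < ((min N (2 ^ (b + 1)) : ℕ) : ℝ) := by
    intro b
    exact_mod_cast hNb1 b
  rcases Nat.eq_or_lt_of_le hJ1 with hJ2 | hJ2
  · -- one point of the progression
    rw [← hJ2] at hnear
    have h1 := blocks N 1 hN δ (fun b => ((min N (2 ^ (b + 1)) : ℕ) : ℝ)) hNb0
      (fun b _ => pb_one _ δ) a (x + k0 * δ) S hsep hnear
    refine h1.trans ?_
    apply mul_le_mul_of_nonneg_right _ hW0
    have h2 : ∑ b ∈ range (Nat.log 2 N + 1), ((min N (2 ^ (b + 1)) : ℕ) : ℝ) ≤ 4 * N :=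
      (sum_le_sum fun b _ => hNb b).trans (geo N hN)
    nlinarith [mul_nonneg (by positivity : (0 : ℝ) ≤ 72 * C0 * (4 + 8 * C2)) hTN,
      mul_nonneg hC2' hN0.le, mul_le_mul_of_nonneg_right hC0 hN0.le]
  · -- many points
    have hJr : (J : ℝ) ≤ (T + 2) / δ + 1 := by
      rw [hJ]
      push_cast
      have := Nat.floor_le (show 0 ≤ (T + 2) / δ by positivity)
      linarith
    have h1 : 1 ≤ (T + 2) / δ := by
      by_contra hcon
      rw [not_le] at hcon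
      have : ⌊(T + 2) / δ⌋₊ = 0 := Nat.floor_eq_zero.2 hcon
      omega
    have hJδ : J * δ ≤ 2 * (T + 2) := by
      calc J * δ ≤ ((T + 2) / δ + 1) * δ := by gcongr
        _ = (T + 2) + δ := by field_simp
        _ ≤ 2 * (T + 2) := by
            rw [le_div_iff₀ hδ0] at h1
            linarith
    have hJB : J * δ ≤ δ ^ ((A + 3) / μ) := by
      have h2 : (1 : ℝ) ≤ (N : ℝ) ^ A := Real.one_le_rpow hN1 (by linarith)
      calc J * δ ≤ 2 * (T + 2) := hJδ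
        _ ≤ 8 * (N : ℝ) ^ A := by linarith
        _ ≤ (N : ℝ) ^ (3 : ℝ) * (N : ℝ) ^ A := by
            apply mul_le_mul_of_nonneg_right _ (by positivity)
            calc (8 : ℝ) = 2 ^ (3 : ℕ) := by norm_num
              _ ≤ (N : ℝ) ^ (3 : ℕ) := pow_le_pow_left₀ (by norm_num) hN2' 3
              _ = (N : ℝ) ^ (3 : ℝ) := by
                  rw [← Real.rpow_natCast]
                  norm_num
        _ = (N : ℝ) ^ (A + 3) := by
            rw [← Real.rpow_add hN0]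
            congr 1
            ring
        _ = ((N : ℝ) ^ μ) ^ ((A + 3) / μ) := by
            rw [← Real.rpow_mul hN0.le]
            congr 1
            field_simp
        _ ≤ _ := Real.rpow_le_rpow (by positivity) hNδ (by positivity)
    have hEδ : 0 ≤ C0 * δ ^ (1 - c0) := by positivity
    set Λ : ℕ → ℝ := fun b => 8 * (C0 * ((min N (2 ^ (b + 1)) : ℕ) : ℝ) + J * (C0 * δ ^ (1 - c0))) with hΛ
    have hΛ0 : ∀ b, 0 < Λ b := by
      intro b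
      have h2 : 0 < C0 * ((min N (2 ^ (b + 1)) : ℕ) : ℝ) := mul_pos (by linarith) (hNb0 b)
      simp only [hΛ]
      positivity
    have h2 := blocks N J hN δ Λ hΛ0 (by
      intro b _
      refine pb_many _ J hJ1 δ _ _ hEδ (mul_pos (by linarith) (hNb0 b)).le ?_
      intro θ ρ hρ
      have h3 : ((min N (2 ^ (b + 1)) : ℕ) : ℝ) ^ μ ≤ δ := by
        refine le_trans ?_ hNδ
        apply Real.rpow_le_rpow (hNb0 b).le _ hμ.le
        exact_mod_cast min_le_left N (2 ^ (b + 1))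
      have h4 := htot (min N (2 ^ (b + 1))) J δ θ ρ (hNb1 b) hJ1 hδ1 h3 hJB hρ
      linarith) a (x + k0 * δ) S hsep hnear
    refine h2.trans ?_
    apply mul_le_mul_of_nonneg_right _ hW0
    have h3 : J * δ ^ (1 - c0) ≤ 2 * (T + 2) * (N : ℝ) ^ (-(2 * c)) := by
      have h4 : δ ^ (1 - c0) = δ * δ ^ (-c0) := by
        rw [sub_eq_add_neg, Real.rpow_add hδ0, Real.rpow_one]
      have h5 : δ ^ (-c0) ≤ (N : ℝ) ^ (-(2 * c)) := by
        rw [Real.rpow_neg hδ0.le, Real.rpow_neg hN0.le]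
        apply inv_anti₀ (by positivity)
        calc (N : ℝ) ^ (2 * c) = ((N : ℝ) ^ μ) ^ c0 := by
              rw [← Real.rpow_mul hN0.le, hc]
              congr 1
              ring
          _ ≤ δ ^ c0 := Real.rpow_le_rpow (by positivity) hNδ hc0.le
      rw [h4, ← mul_assoc]
      have h6 : 0 ≤ δ ^ (-c0) := by positivity
      have h7 : 0 ≤ 2 * (T + 2) := by linarith
      calc J * δ * δ ^ (-c0) ≤ 2 * (T + 2) * δ ^ (-c0) := by gcongr
        _ ≤ _ := by gcongr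
    have h4 : ((Nat.log 2 N + 1 : ℕ) : ℝ) ≤ 2 * C2 * (N : ℝ) ^ c := by
      refine (log_blocks N hN).trans ?_
      have h5 := hlg N hN
      rw [Real.rpow_one] at h5
      linarith
    have h5 : ∑ b ∈ range (Nat.log 2 N + 1), Λ b ≤ 8 * C0 * (4 * N) + 8 * C0 * (((Nat.log 2 N + 1 : ℕ) : ℝ) * (J * δ ^ (1 - c0))) := by
      simp only [hΛ]
      calc ∑ b ∈ range (Nat.log 2 N + 1), 8 * (C0 * ((min N (2 ^ (b + 1)) : ℕ) : ℝ) + J * (C0 * δ ^ (1 - c0)))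
          = 8 * C0 * (∑ b ∈ range (Nat.log 2 N + 1), ((min N (2 ^ (b + 1)) : ℕ) : ℝ)) +
            8 * C0 * (((Nat.log 2 N + 1 : ℕ) : ℝ) * (J * δ ^ (1 - c0))) := by
            rw [← mul_sum, sum_add_distrib, ← mul_sum, sum_const, card_range, nsmul_eq_mul]
            ring
        _ ≤ _ := by
            have h6 : ∑ b ∈ range (Nat.log 2 N + 1), ((min N (2 ^ (b + 1)) : ℕ) : ℝ) ≤ 4 * N :=
              (sum_le_sum fun b _ => hNb b).trans (geo N hN)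
            have h7 : 8 * C0 * (∑ b ∈ range (Nat.log 2 N + 1), ((min N (2 ^ (b + 1)) : ℕ) : ℝ)) ≤ 8 * C0 * (4 * N) :=
              mul_le_mul_of_nonneg_left h6 (by positivity)
            linarith
    have h6 : ((Nat.log 2 N + 1 : ℕ) : ℝ) * (J * δ ^ (1 - c0)) ≤ 4 * C2 * (T * (N : ℝ) ^ (-c)) + 8 * C2 * N := by
      have h7 : (N : ℝ) ^ c * (N : ℝ) ^ (-(2 * c)) = (N : ℝ) ^ (-c) := by
        rw [← Real.rpow_add hN0]
        congr 1
        ring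
      have h8 : (N : ℝ) ^ (-c) ≤ N := by
        calc (N : ℝ) ^ (-c) ≤ (N : ℝ) ^ (1 : ℝ) := Real.rpow_le_rpow_of_exponent_le hN1 (by linarith)
          _ = N := Real.rpow_one _
      calc ((Nat.log 2 N + 1 : ℕ) : ℝ) * (J * δ ^ (1 - c0)) ≤ (2 * C2 * (N : ℝ) ^ c) * (2 * (T + 2) * (N : ℝ) ^ (-(2 * c))) := by
            gcongr
        _ = 4 * C2 * (T + 2) * ((N : ℝ) ^ c * (N : ℝ) ^ (-(2 * c))) := by ring
        _ = 4 * C2 * (T * (N : ℝ) ^ (-c)) + 8 * C2 * (N : ℝ) ^ (-c) := by rw [h7]; ring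
        _ ≤ _ := by
            have : 8 * C2 * (N : ℝ) ^ (-c) ≤ 8 * C2 * N := by gcongr
            linarith
    have h7 : 8 * C0 * (((Nat.log 2 N + 1 : ℕ) : ℝ) * (J * δ ^ (1 - c0))) ≤ 8 * C0 * (4 * C2 * (T * (N : ℝ) ^ (-c)) + 8 * C2 * N) :=
      mul_le_mul_of_nonneg_left h6 (by positivity)
    nlinarith [mul_nonneg hC2' hN0.le, mul_nonneg hC2' hTN, mul_nonneg (by linarith : (0 : ℝ) ≤ C0) hTN]

/-- points near `R` progressions -/
theorem main (A μ : ℝ) (hA : 1 ≤ A) (hμ : 0 < μ) (hμ1 : μ ≤ 1) : ∃ c C : ℝ, 0 < c ∧ 1 ≤ C ∧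
    ∀ (N R : ℕ) (T : ℝ) (x δ : ℕ → ℝ) (a : ℕ → ℂ) (S : Finset ℝ), 1 ≤ N → 0 ≤ T → T ≤ (N : ℝ) ^ A →
      (∀ r < R, (N : ℝ) ^ μ ≤ δ r) → (∀ t ∈ S, 0 ≤ t ∧ t ≤ T) → Sep S →
      (∀ t ∈ S, ∃ r < R, ∃ k : ℤ, |t - (x r + k * δ r)| ≤ 1) →
      ∑ t ∈ S, ‖DP N a t‖ ^ 2 ≤ C * R * (N + T * (N : ℝ) ^ (-c)) * ∑ n ∈ Icc 1 N, ‖a n‖ ^ 2 := by
  classical
  obtain ⟨c, C, hc, hC, h⟩ := one_prog A μ hA hμ hμ1
  refine ⟨c, C, hc, hC, ?_⟩
  intro N R T x δ a S hN hT0 hT hδ hS hsep hx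
  choose! f hf using hx
  have h1 : ∑ t ∈ S, ‖DP N a t‖ ^ 2 = ∑ r ∈ range R, ∑ t ∈ S.filter (fun t => f t = r), ‖DP N a t‖ ^ 2 := by
    rw [sum_fiberwise_of_maps_to]
    intro t ht
    exact mem_range.2 (hf t ht).1
  rw [h1]
  calc ∑ r ∈ range R, ∑ t ∈ S.filter (fun t => f t = r), ‖DP N a t‖ ^ 2
      ≤ ∑ _r ∈ range R, C * (N + T * (N : ℝ) ^ (-c)) * ∑ n ∈ Icc 1 N, ‖a n‖ ^ 2 := by
        apply sum_le_sum
        intro r hr
        rw [mem_range] at hr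
        apply h N T (δ r) (x r) a _ hN hT0 hT (hδ r hr)
        · intro t ht
          exact hS t (mem_filter.1 ht).1
        · intro t ht u hu htu
          exact hsep t (mem_filter.1 ht).1 u (mem_filter.1 hu).1 htu
        · intro t ht
          obtain ⟨h2, h3⟩ := mem_filter.1 ht
          have h4 := (hf t h2).2
          rw [h3] at h4
          exact h4
    _ = _ := by
        rw [sum_const, card_range, nsmul_eq_mul]
        ring

end Pool.Agent.J6H80.AP
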