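import Mathlib
import Pool.Agent.J6H80.AP.Cmp

/-!
# Power saving
-/

set_option autoImplicit false

namespace Pool.Agent.J6H80.AP

open Finset

theorem div_pow_le {d : ℕ} (hd : 2 ≤ d) (a b : ℕ) : d ^ a / d ^ (a - b) ≤ d ^ b := by
  rcases Nat.le_total b a with h | h
  · rw [Nat.pow_div (by omega) (by omega)]
    exact (Nat.pow_le_pow_right (by omega) (by omega))
  · rw [Nat.sub_eq_zero_of_le h, pow_zero, Nat.div_one]
    exact Nat.pow_le_pow_right (by omega) h

/-- Small sets of classes have few preimages. -/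
def Sav (d : ℕ) (w : ℕ → ℤ) (c₁ CV K δ : ℝ) : Prop := ∀ (ι : Type) (N X : ℕ) (A : Finset ℕ)
      (lab : ℕ → ι) (V : Finset ι), (∀ x ∈ A, X ≤ x ∧ x < X + d ^ (N + 2)) →
      (∀ x ∈ A, ∀ y ∈ A, lab x = lab y → (d : ℤ) ^ N ∣ w x - w y) → (∀ x ∈ A, lab x ∈ V) →
      (V.card : ℝ) ≤ CV * (((N : ℝ) + 1) * ((d : ℝ) ^ N * Real.exp (-(c₁ * N)))) →
      (A.card : ℝ) ≤ K * ((d : ℝ) ^ N * Real.exp (-(δ * N)))

theorem Sav.mono {d : ℕ} {w : ℕ → ℤ} {c₁ CV K δ K' δ' : ℝ} (h : Sav d w c₁ CV K δ) (hK : 0 < K)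
    (hKK : K ≤ K') (hδ : δ' ≤ δ) : Sav d w c₁ CV K' δ' := by
  intro ι N X A lab V h1 h2 h3 h4
  refine (h ι N X A lab V h1 h2 h3 h4).trans ?_
  have hN : (0 : ℝ) ≤ N := Nat.cast_nonneg N
  have h5 : Real.exp (-(δ * N)) ≤ Real.exp (-(δ' * N)) := by
    apply Real.exp_le_exp.2
    have := mul_le_mul_of_nonneg_right hδ hN
    linarith
  have h6 := Real.exp_pos (-(δ * N))
  have h7 : (0 : ℝ) ≤ (d : ℝ) ^ N := by positivity
  exact mul_le_mul hKK (mul_le_mul_of_nonneg_left h5 h7) (by positivity) (by linarith)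

theorem exists_sav {d c β i : ℕ} {w : ℕ → ℤ} {G : ℕ → ℕ → ℕ → Prop} (hd : 2 ≤ d)
    (hG : ∀ p ∈ d.primeFactors, Part p c w β i (G p)) {c₁ CV : ℝ} (hc₁ : 0 < c₁) (hCV : 0 < CV) :
    ∃ K δ : ℝ, 0 < K ∧ 0 < δ ∧ Sav d w c₁ CV K δ := by
  classical
  have hd2 : (2 : ℝ) ≤ d := by exact_mod_cast hd
  have hd0 : (0 : ℝ) < d := by linarith
  set L := Real.log d with hL
  have hL0 : 0 < L := Real.log_pos (by linarith)
  have hl2 : 0 < Real.log 2 := Real.log_pos (by norm_num)
  set θ : ℝ := min 1 (c₁ / (4 * L)) with hθ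
  have hθ0 : 0 < θ := lt_min one_pos (by positivity)
  have hθ1 : θ ≤ 1 := min_le_left _ _
  have hθc : 2 * θ * L ≤ c₁ / 2 := by
    have h1 : θ ≤ c₁ / (4 * L) := min_le_right _ _
    have h2 := mul_le_mul_of_nonneg_right h1 hL0.le
    have e1 : c₁ / (4 * L) * L = c₁ / 4 := by field_simp
    rw [e1] at h2
    linarith
  have hi0 : (0 : ℝ) ≤ i := Nat.cast_nonneg i
  have hc0 : (0 : ℝ) ≤ c := Nat.cast_nonneg c
  set δ2 : ℝ := θ * Real.log 2 / (4 * i + 4) with hδ2
  have hδ20 : 0 < δ2 := by positivity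
  set δ : ℝ := min (c₁ / 4) (min δ2 (L / 2)) with hδ
  have hδ0 : 0 < δ := lt_min (by positivity) (lt_min hδ20 (by positivity))
  have hδa : δ ≤ c₁ / 4 := min_le_left _ _
  have hδb : δ ≤ δ2 := (min_le_right _ _).trans (min_le_left _ _)
  have hδc : δ ≤ L / 2 := (min_le_right _ _).trans (min_le_right _ _)
  set P : ℝ := ((d.primeFactors.card : ℕ) : ℝ) with hP
  have hP0 : 0 ≤ P := Nat.cast_nonneg _
  set K1 : ℝ := P * (2 * i) * (4 * d ^ 2 + 1) with hK1
  set K2 : ℝ := CV * d ^ (4 + β) * (1 + 4 / c₁) with hK2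
  set K3 : ℝ := c * d * (1 + 2 / L) with hK3
  set K4 : ℝ := Real.exp (L * ((4 * i + 1) / θ + 2)) with hK4
  have hK10 : 0 ≤ K1 := by positivity
  have hK20 : 0 ≤ K2 := by positivity
  have hK30 : 0 ≤ K3 := by positivity
  have hK40 : 0 < K4 := Real.exp_pos _
  refine ⟨K1 + K2 + K3 + K4, δ, by positivity, hδ0, ?_⟩
  intro ι N X A lab V hA hlab hV hVc
  have hN0 : (0 : ℝ) ≤ N := Nat.cast_nonneg N
  have edN : (d : ℝ) ^ N = Real.exp (N * L) := by rw [Real.exp_nat_mul, Real.exp_log hd0]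
  set Q : ℝ := (d : ℝ) ^ N * Real.exp (-(δ * N)) with hQ
  have hdN : (0 : ℝ) < (d : ℝ) ^ N := by positivity
  have hQl : Real.exp (L / 2 * N) ≤ Q := by
    rw [hQ, edN, ← Real.exp_add]
    apply Real.exp_le_exp.2
    nlinarith
  have hQ1 : 1 ≤ Q := by
    refine le_trans ?_ hQl
    apply Real.one_le_exp
    positivity
  set j : ℕ := ⌊θ * N⌋₊ with hj
  have hju : (j : ℝ) ≤ θ * N := Nat.floor_le (by positivity)
  have hjl : θ * N < j + 1 := Nat.lt_floor_add_one _
  rcases Nat.lt_or_ge (4 * i) j with hlarge | hsmall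
  · set t : ℕ := j / (4 * i + 4) with ht
    have ht1 : t * (4 * i + 4) ≤ j := Nat.div_mul_le_self _ _
    have ht2 : j < (t + 1) * (4 * i + 4) := by
      have := Nat.lt_div_mul_add (a := j) (b := 4 * i + 4) (by omega)
      rw [← ht] at this
      linarith
    have hcond : 2 * i * (t + 1) < j := by nlinarith
    set B : ℕ := c * (d * N + 1) with hB
    set A1 := A.filter (fun x => B ≤ x) with hA1
    have hcnt := count (ι := ι) hd hG (N := N) (X := X) (L := d ^ (N + 2)) hcond A1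
      (fun x hx => hA x (mem_filter.1 hx).1) (fun x hx => (mem_filter.1 hx).2) lab
      (fun x hx y hy => hlab x (mem_filter.1 hx).1 y (mem_filter.1 hy).1) V
      (fun x hx => hV x (mem_filter.1 hx).1)
    set s := 1 + β + j with hs
    have h2 : d ^ (N + 2) / d ^ (N - s) ≤ d ^ (s + 2) := by
      have := div_pow_le hd (N + 2) (s + 2)
      have e : N + 2 - (s + 2) = N - s := by omega
      rwa [e] at this
    have hA2 : A.card ≤ A1.card + B := by
      have h3 : A1.card + (A.filter (fun x => ¬ B ≤ x)).card = A.card :=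
        card_filter_add_card_filter_not (s := A) (fun x => B ≤ x)
      have h4 : (A.filter (fun x => ¬ B ≤ x)).card ≤ B := by
        have h5 : A.filter (fun x => ¬ B ≤ x) ⊆ range B := by
          intro x hx
          rw [mem_filter] at hx
          rw [mem_range]; omega
        have := card_le_card h5
        rwa [card_range] at this
      omega
    -- the real form of the count
    have h3 : (A1.card : ℝ) ≤ P * (2 * i * ((d : ℝ) ^ (N + 2) / 2 ^ t + 1)) +
        V.card * ((d : ℝ) ^ j * ((d : ℝ) ^ (s + 2) + 1)) := by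
      have h4 : (A1.card : ℝ) ≤ ((d.primeFactors.card * (2 * i * (d ^ (N + 2) / 2 ^ t + 1)) +
          V.card * (d ^ j * (d ^ (s + 2) + 1)) : ℕ) : ℝ) := by
        refine le_trans (Nat.cast_le.2 hcnt) (Nat.cast_le.2 ?_)
        exact Nat.add_le_add_left (Nat.mul_le_mul_left _ (Nat.mul_le_mul_left _ (Nat.add_le_add_right h2 1))) _
      refine h4.trans ?_
      have h5 : (((d ^ (N + 2) / 2 ^ t : ℕ)) : ℝ) ≤ (d : ℝ) ^ (N + 2) / 2 ^ t := by
        refine Nat.cast_div_le.trans ?_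
        push_cast; exact le_rfl
      rw [Nat.cast_add, Nat.cast_mul, Nat.cast_mul (2 * i), Nat.cast_add (d ^ (N + 2) / 2 ^ t)]
      have h6 : (0 : ℝ) ≤ 2 * i := by positivity
      have h7 : P * (((2 * i : ℕ) : ℝ) * ((((d ^ (N + 2) / 2 ^ t : ℕ)) : ℝ) + ((1 : ℕ) : ℝ))) ≤
          P * (2 * i * ((d : ℝ) ^ (N + 2) / 2 ^ t + 1)) := by
        apply mul_le_mul_of_nonneg_left _ hP0
        push_cast
        apply mul_le_mul_of_nonneg_left _ h6
        push_cast at h5
        linarith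
      refine add_le_add h7 (le_of_eq ?_)
      push_cast; ring
    -- the first term
    have h4 : (d : ℝ) ^ (N + 2) / 2 ^ t ≤ 4 * d ^ 2 * Q := by
      have h5 : (j : ℝ) < ((t : ℝ) + 1) * (4 * i + 4) := by exact_mod_cast ht2
      have h6 : (j : ℝ) / (4 * i + 4) < (t : ℝ) + 1 := by rwa [div_lt_iff₀ (by positivity)]
      have h7 : (θ * N - 1) / (4 * i + 4) ≤ (j : ℝ) / (4 * i + 4) := by
        apply div_le_div_of_nonneg_right _ (by positivity)
        linarith
      have h8 : (θ * N - 1) / (4 * i + 4) = θ / (4 * i + 4) * N - 1 / (4 * i + 4) := by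
        field_simp
      have h9 : 1 / (4 * (i : ℝ) + 4) ≤ 1 := by
        rw [div_le_one (by positivity)]; linarith
      have h10 : θ / (4 * i + 4) * N - 2 ≤ t := by linarith
      have h11 : δ * N ≤ (t + 2) * Real.log 2 := by
        have h12 : δ * N ≤ δ2 * N := mul_le_mul_of_nonneg_right hδb hN0
        have h13 : δ2 * N = θ / (4 * i + 4) * N * Real.log 2 := by rw [hδ2]; ring
        have h14 : θ / (4 * i + 4) * N * Real.log 2 ≤ (t + 2) * Real.log 2 :=
          mul_le_mul_of_nonneg_right (by linarith) hl2.le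
        linarith
      have h12 : (1 : ℝ) ≤ 4 * 2 ^ t * Real.exp (-(δ * N)) := by
        have h13 : (4 : ℝ) * 2 ^ t = Real.exp ((t + 2) * Real.log 2) := by
          have : ((t : ℝ) + 2) = ((t + 2 : ℕ) : ℝ) := by push_cast; ring
          rw [this, Real.exp_nat_mul, Real.exp_log (by norm_num), pow_add]; ring
        rw [h13, ← Real.exp_add]
        apply Real.one_le_exp
        linarith
      rw [div_le_iff₀ (by positivity), hQ, pow_add]
      have h13 : (0 : ℝ) ≤ (d : ℝ) ^ N * d ^ 2 := by positivity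
      have h14 := mul_le_mul_of_nonneg_left h12 h13
      calc (d : ℝ) ^ N * d ^ 2 = (d : ℝ) ^ N * d ^ 2 * 1 := (mul_one _).symm
        _ ≤ (d : ℝ) ^ N * d ^ 2 * (4 * 2 ^ t * Real.exp (-(δ * N))) := h14
        _ = _ := by ring
    have hT1 : P * (2 * i * ((d : ℝ) ^ (N + 2) / 2 ^ t + 1)) ≤ K1 * Q := by
      have h5 : (d : ℝ) ^ (N + 2) / 2 ^ t + 1 ≤ (4 * d ^ 2 + 1) * Q := by linarith
      calc P * (2 * i * ((d : ℝ) ^ (N + 2) / 2 ^ t + 1)) ≤ P * (2 * i * ((4 * d ^ 2 + 1) * Q)) := by gcongr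
        _ = K1 * Q := by rw [hK1]; ring
    -- the second term
    have hT2 : (V.card : ℝ) * ((d : ℝ) ^ j * ((d : ℝ) ^ (s + 2) + 1)) ≤ K2 * Q := by
      have h5 : (d : ℝ) ^ j * ((d : ℝ) ^ (s + 2) + 1) ≤ d ^ (4 + β) * Real.exp (c₁ / 2 * N) := by
        have h6 : (d : ℝ) ^ (s + 2) + 1 ≤ (d : ℝ) ^ (s + 3) := by
          have : (1 : ℝ) ≤ (d : ℝ) ^ (s + 2) := one_le_pow₀ (by linarith)
          rw [pow_succ (d : ℝ) (s + 2)]; nlinarith
        calc (d : ℝ) ^ j * ((d : ℝ) ^ (s + 2) + 1) ≤ (d : ℝ) ^ j * (d : ℝ) ^ (s + 3) := by gcongr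
          _ = d ^ (4 + β) * ((d : ℝ) ^ (2 * j)) := by
              rw [← pow_add, ← pow_add]; congr 1; omega
          _ ≤ d ^ (4 + β) * Real.exp (c₁ / 2 * N) := by
              apply mul_le_mul_of_nonneg_left _ (by positivity)
              have e2 : (d : ℝ) ^ (2 * j) = Real.exp ((2 * j : ℕ) * L) := by
                rw [Real.exp_nat_mul, Real.exp_log hd0]
              rw [e2]
              apply Real.exp_le_exp.2
              push_cast
              have h7 := mul_le_mul_of_nonneg_right hju hL0.le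
              have h8 := mul_le_mul_of_nonneg_right hθc hN0
              nlinarith
      have h6 : ((N : ℝ) + 1) ≤ (1 + 4 / c₁) * Real.exp (c₁ / 4 * N) := by
        have h7 := Real.add_one_le_exp (c₁ / 4 * N)
        have h8 : ((N : ℝ) + 1) ≤ (1 + 4 / c₁) * (c₁ / 4 * N + 1) := by
          have e2 : (1 + 4 / c₁) * (c₁ / 4 * N + 1) = N + 1 + (c₁ / 4 * N + 4 / c₁) := by
            field_simp; ring
          rw [e2]
          have : 0 ≤ c₁ / 4 * N + 4 / c₁ := by positivity
          linarith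
        exact h8.trans (by gcongr)
      calc (V.card : ℝ) * ((d : ℝ) ^ j * ((d : ℝ) ^ (s + 2) + 1))
          ≤ (CV * (((N : ℝ) + 1) * ((d : ℝ) ^ N * Real.exp (-(c₁ * N))))) *
            (d ^ (4 + β) * Real.exp (c₁ / 2 * N)) := by
            apply mul_le_mul hVc h5 (by positivity) (by positivity)
        _ ≤ (CV * (((1 + 4 / c₁) * Real.exp (c₁ / 4 * N)) * ((d : ℝ) ^ N * Real.exp (-(c₁ * N))))) *
            (d ^ (4 + β) * Real.exp (c₁ / 2 * N)) := by gcongr
        _ = K2 * ((d : ℝ) ^ N * (Real.exp (c₁ / 4 * N) * Real.exp (-(c₁ * N)) * Real.exp (c₁ / 2 * N))) := by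
            rw [hK2]; ring
        _ ≤ K2 * Q := by
            apply mul_le_mul_of_nonneg_left _ hK20
            rw [hQ]
            apply mul_le_mul_of_nonneg_left _ hdN.le
            rw [← Real.exp_add, ← Real.exp_add]
            apply Real.exp_le_exp.2
            have := mul_le_mul_of_nonneg_right hδa hN0
            linarith
    -- the small arguments
    have hT3 : (B : ℝ) ≤ K3 * Q := by
      have h5 : (B : ℝ) ≤ c * d * (N + 1) := by
        rw [hB]; push_cast
        have h6 : (d : ℝ) * N + 1 ≤ d * (N + 1) := by linarith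
        calc (c : ℝ) * (d * N + 1) ≤ c * (d * (N + 1)) := mul_le_mul_of_nonneg_left h6 hc0
          _ = c * d * (N + 1) := by ring
      have h6 : ((N : ℝ) + 1) ≤ (1 + 2 / L) * Real.exp (L / 2 * N) := by
        have h7 := Real.add_one_le_exp (L / 2 * N)
        have h8 : ((N : ℝ) + 1) ≤ (1 + 2 / L) * (L / 2 * N + 1) := by
          have e2 : (1 + 2 / L) * (L / 2 * N + 1) = N + 1 + (L / 2 * N + 2 / L) := by
            field_simp; ring
          rw [e2]
          have : 0 ≤ L / 2 * N + 2 / L := by positivity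
          linarith
        exact h8.trans (by gcongr)
      calc (B : ℝ) ≤ c * d * (N + 1) := h5
        _ ≤ c * d * ((1 + 2 / L) * Real.exp (L / 2 * N)) := by gcongr
        _ ≤ c * d * ((1 + 2 / L) * Q) := by gcongr
        _ = K3 * Q := by rw [hK3]; ring
    have hA2' : (A.card : ℝ) ≤ A1.card + B := by exact_mod_cast hA2
    have h9 : 0 ≤ K4 * Q := by positivity
    calc (A.card : ℝ) ≤ A1.card + B := hA2'
      _ ≤ (P * (2 * i * ((d : ℝ) ^ (N + 2) / 2 ^ t + 1)) +
        V.card * ((d : ℝ) ^ j * ((d : ℝ) ^ (s + 2) + 1))) + B := by linarith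
      _ ≤ (K1 * Q + K2 * Q) + K3 * Q := by linarith
      _ ≤ (K1 + K2 + K3 + K4) * Q := by nlinarith
  · have h1 : (N : ℝ) ≤ (4 * i + 1) / θ := by
      rw [le_div_iff₀ hθ0]
      have : (j : ℝ) ≤ 4 * i := by exact_mod_cast hsmall
      linarith
    have h2 : A.card ≤ d ^ (N + 2) := by
      have h3 : A ⊆ Ico X (X + d ^ (N + 2)) := fun x hx => mem_Ico.2 (hA x hx)
      have h4 := card_le_card h3
      rwa [Nat.card_Ico, Nat.add_sub_cancel_left] at h4
    have h3 : (A.card : ℝ) ≤ K4 := by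
      calc (A.card : ℝ) ≤ (d : ℝ) ^ (N + 2) := by exact_mod_cast h2
        _ = Real.exp (((N + 2 : ℕ) : ℝ) * L) := by rw [Real.exp_nat_mul, Real.exp_log hd0]
        _ ≤ K4 := by
            rw [hK4]
            apply Real.exp_le_exp.2
            push_cast
            have := mul_le_mul_of_nonneg_right (show (N : ℝ) + 2 ≤ (4 * i + 1) / θ + 2 by linarith) hL0.le
            linarith
    calc (A.card : ℝ) ≤ K4 * 1 := by rw [mul_one]; exact h3
      _ ≤ (K1 + K2 + K3 + K4) * Q := by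
          apply mul_le_mul _ hQ1 zero_le_one (by positivity)
          linarith

end Pool.Agent.J6H80.AP
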