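import Pool.Agent.J6H80.AP.Form
import Pool.Agent.TH705.DL.Block

/-!
Points near an arithmetic progression.
-/

set_option autoImplicit false

namespace Pool.Agent.J6H80.AP

open Finset MeasureTheory
open Pool.Agent.H469R2.NK (e norm_e conj_e e_add)
open Pool.Agent.TH705.DL (ph ph_add ph_norm DP DP_cont DP_hasDeriv Sep sum_unit_le)

/-- the bound for the points of one progression -/
def PB (N J : ℕ) (δ K : ℝ) : Prop :=
  ∀ (a : ℕ → ℂ) (x : ℝ), ∑ j ∈ range J, ‖DP N a (x + j * δ)‖ ^ 2 ≤ K * ∑ n ∈ Icc 1 N, ‖a n‖ ^ 2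

theorem pb_one (N : ℕ) (δ : ℝ) : PB N 1 δ N := by
  intro a x
  rw [sum_range_one]
  have h1 : ‖DP N a (x + ((0 : ℕ) : ℝ) * δ)‖ ≤ ∑ n ∈ Icc 1 N, 1 * ‖a n‖ := by
    unfold DP
    refine (norm_sum_le _ _).trans (le_of_eq ?_)
    apply sum_congr rfl
    intro n _
    rw [norm_mul, ph_norm, mul_one, one_mul]
  have h2 := sum_mul_sq_le_sq_mul_sq (Icc 1 N) (fun _ => (1 : ℝ)) (fun n => ‖a n‖)
  have h3 : ∑ _n ∈ Icc 1 N, (1 : ℝ) ^ 2 = N := by
    simp
  rw [h3] at h2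
  exact (pow_le_pow_left₀ (norm_nonneg _) h1 2).trans h2

theorem pb_many (N J : ℕ) (hJ : 1 ≤ J) (δ U E : ℝ) (hE : 0 ≤ E) (hU : 0 ≤ U)
    (hc : ∀ θ ρ : ℝ, 1 / (J : ℝ) ≤ ρ → (((Icc 1 N).filter (fun n => dn (th δ n - θ) ≤ ρ)).card : ℝ) ≤ U * ρ + E) :
    PB N J δ (8 * (U + J * E)) := by
  intro a x
  have hJ0 : (0 : ℝ) < J := by exact_mod_cast hJ
  have h1 := form N J hJ (th δ) (fun n => a n * ph x n) (8 * J * (U + J * E))
    (fun θ => row N J hJ (th δ) U E hE hU hc θ)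
  have h2 : ∀ j : ℕ, DP N a (x + j * δ) = ∑ n ∈ Icc 1 N, a n * ph x n * e (j * th δ n) := by
    intro j
    unfold DP
    apply sum_congr rfl
    intro n _
    rw [ph_add, mul_assoc]
    congr 2
    unfold ph e th
    congr 1
    have hpi := Real.pi_ne_zero
    push_cast
    field_simp
  have h3 : ∑ n ∈ Icc 1 N, ‖a n * ph x n‖ ^ 2 = ∑ n ∈ Icc 1 N, ‖a n‖ ^ 2 := by
    apply sum_congr rfl
    intro n _
    rw [norm_mul, ph_norm, mul_one]
  rw [h3] at h1
  have h4 : 8 * (J : ℝ) * (U + J * E) / J = 8 * (U + J * E) := by field_simp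
  rw [h4] at h1
  refine le_trans (le_of_eq ?_) h1
  apply sum_congr rfl
  intro j _
  rw [h2]

/-- the derivative -/
noncomputable def ader (L : ℝ) (a : ℕ → ℂ) (n : ℕ) : ℂ := Complex.I * ((Real.log n - L : ℝ) : ℂ) * a n

theorem norm_tw (L x : ℝ) (z : ℂ) : ‖Complex.exp (((-(L * x) : ℝ) : ℂ) * Complex.I) * z‖ = ‖z‖ := by
  rw [norm_mul, Complex.norm_exp_ofReal_mul_I, one_mul]

theorem point (N : ℕ) (a : ℕ → ℂ) (L t : ℝ) :
    ‖DP N a t‖ ^ 2 ≤ ∫ u in t..(t + 1), (2 * ‖DP N a u‖ ^ 2 + ‖DP N (ader L a) u‖ ^ 2) := by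
  set h : ℝ → ℂ := fun x => Complex.exp (((-(L * x) : ℝ) : ℂ) * Complex.I) * DP N a x with hh
  set h' : ℝ → ℂ := fun x => Complex.exp (((-(L * x) : ℝ) : ℂ) * Complex.I) * DP N (ader L a) x with hh'
  have hc1 := DP_cont N a
  have hc2 := DP_cont N (ader L a)
  have hd : ∀ x, HasDerivAt h (h' x) x := by
    intro x
    have h1 : HasDerivAt (fun x : ℝ => (((-(L * x) : ℝ) : ℂ) * Complex.I)) (((-L : ℝ) : ℂ) * Complex.I) x := by
      have h2 : HasDerivAt (fun x : ℝ => -(L * x)) (-L) x := by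
        have h := (hasDerivAt_id' x).const_mul (-L)
        simp only [mul_one, neg_mul] at h
        exact h
      exact h2.ofReal_comp.mul_const Complex.I
    have h3 := h1.cexp.mul (DP_hasDeriv N a x)
    refine h3.congr_deriv ?_
    simp only [hh']
    have h4 : DP N (ader L a) x = DP N (fun n => Complex.I * (Real.log n : ℂ) * a n) x - Complex.I * (L : ℂ) * DP N a x := by
      unfold DP ader
      rw [mul_sum, ← sum_sub_distrib]
      apply sum_congr rfl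
      intro n _
      push_cast
      ring
    rw [h4]
    push_cast
    ring
  have h1 := Pool.Agent.W170.MV.gall hd (by simp only [hh]; fun_prop) (by simp only [hh']; fun_prop) t t le_rfl (by linarith)
  simp only [hh, hh', norm_tw] at h1
  exact h1

/-- points near a progression -/
theorem near (N J : ℕ) (δ K : ℝ) (hPB : PB N J δ K) (hK : 0 ≤ K) (L : ℝ) (a : ℕ → ℂ)
    (ha : ∀ n ∈ Icc 1 N, a n ≠ 0 → |Real.log n - L| ≤ 1) (x : ℝ) (S : Finset ℝ) (hS : Sep S)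
    (hx : ∀ t ∈ S, ∃ j < J, |t - (x + j * δ)| ≤ 1) :
    ∑ t ∈ S, ‖DP N a t‖ ^ 2 ≤ 9 * K * ∑ n ∈ Icc 1 N, ‖a n‖ ^ 2 := by
  classical
  set g : ℝ → ℝ := fun u => 2 * ‖DP N a u‖ ^ 2 + ‖DP N (ader L a) u‖ ^ 2 with hg
  have hc1 := DP_cont N a
  have hc2 := DP_cont N (ader L a)
  have hgc : Continuous g := by simp only [hg]; fun_prop
  have hg0 : ∀ u, 0 ≤ g u := fun u => by simp only [hg]; positivity
  choose! f hf using hx
  have h1 : ∑ t ∈ S, ‖DP N a t‖ ^ 2 ≤ ∑ t ∈ S, ∫ u in t..(t + 1), g u :=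
    sum_le_sum fun t _ => point N a L t
  have h2 : ∑ t ∈ S, ∫ u in t..(t + 1), g u = ∑ j ∈ range J, ∑ t ∈ S.filter (fun t => f t = j), ∫ u in t..(t + 1), g u := by
    rw [sum_fiberwise_of_maps_to]
    intro t ht
    exact mem_range.2 (hf t ht).1
  have h3 : ∀ j ∈ range J, ∑ t ∈ S.filter (fun t => f t = j), ∫ u in t..(t + 1), g u ≤
      ∫ u in (x + j * δ - 1)..(x + j * δ + 1 + 1), g u := by
    intro j _
    apply sum_unit_le hgc hg0
    · intro t ht u hu htu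
      exact hS t (mem_filter.1 ht).1 u (mem_filter.1 hu).1 htu
    · linarith
    · intro t ht
      obtain ⟨h4, h5⟩ := mem_filter.1 ht
      have h6 := (hf t h4).2
      rw [h5, abs_le] at h6
      constructor <;> linarith [h6.1, h6.2]
  have h4 : ∀ j : ℕ, ∫ u in (x + j * δ - 1)..(x + j * δ + 1 + 1), g u = ∫ v in (-1 : ℝ)..2, g ((x + v) + j * δ) := by
    intro j
    have h5 := intervalIntegral.integral_comp_add_right (a := -1) (b := 2) g (x + j * δ)
    have e1 : (-1 : ℝ) + (x + j * δ) = x + j * δ - 1 := by ring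
    have e2 : (2 : ℝ) + (x + j * δ) = x + j * δ + 1 + 1 := by ring
    rw [e1, e2] at h5
    rw [← h5]
    apply intervalIntegral.integral_congr
    intro v _
    simp only
    congr 1
    ring
  have hA : ∑ n ∈ Icc 1 N, ‖ader L a n‖ ^ 2 ≤ ∑ n ∈ Icc 1 N, ‖a n‖ ^ 2 := by
    apply sum_le_sum
    intro n hn
    by_cases h0 : a n = 0
    · unfold ader
      rw [h0, mul_zero]
    · have h5 := ha n hn h0
      unfold ader
      rw [norm_mul, norm_mul, Complex.norm_I, one_mul, Complex.norm_real, Real.norm_eq_abs, mul_pow]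
      have h6 : |Real.log n - L| ^ 2 ≤ 1 := by
        rw [← one_pow 2]
        exact pow_le_pow_left₀ (abs_nonneg _) h5 2
      have h7 : 0 ≤ ‖a n‖ ^ 2 := by positivity
      nlinarith
  have h5 : ∀ v : ℝ, ∑ j ∈ range J, g ((x + v) + j * δ) ≤ 3 * K * ∑ n ∈ Icc 1 N, ‖a n‖ ^ 2 := by
    intro v
    simp only [hg]
    rw [sum_add_distrib, ← mul_sum]
    have h6 := hPB a (x + v)
    have h7 := (hPB (ader L a) (x + v)).trans (mul_le_mul_of_nonneg_left hA hK)
    linarith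
  have h6 : ∑ j ∈ range J, ∫ v in (-1 : ℝ)..2, g ((x + v) + j * δ) = ∫ v in (-1 : ℝ)..2, ∑ j ∈ range J, g ((x + v) + j * δ) := by
    rw [intervalIntegral.integral_finset_sum]
    intro j _
    apply Continuous.intervalIntegrable
    fun_prop
  have h7 : ∫ v in (-1 : ℝ)..2, ∑ j ∈ range J, g ((x + v) + j * δ) ≤ ∫ _v in (-1 : ℝ)..2, 3 * K * ∑ n ∈ Icc 1 N, ‖a n‖ ^ 2 := by
    apply intervalIntegral.integral_mono_on (by norm_num)
    · apply Continuous.intervalIntegrable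
      fun_prop
    · simp
    · intro v _
      exact h5 v
  rw [intervalIntegral.integral_const] at h7
  calc ∑ t ∈ S, ‖DP N a t‖ ^ 2 ≤ ∑ j ∈ range J, ∫ u in (x + j * δ - 1)..(x + j * δ + 1 + 1), g u := by
        refine h1.trans ?_
        rw [h2]
        exact sum_le_sum h3
    _ = ∫ v in (-1 : ℝ)..2, ∑ j ∈ range J, g ((x + v) + j * δ) := by
        rw [← h6]
        exact sum_congr rfl fun j _ => h4 j
    _ ≤ _ := h7
    _ = _ := by
        rw [smul_eq_mul]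
        ring

/-- the dyadic blocks -/
theorem blocks (N J : ℕ) (hN : 1 ≤ N) (δ : ℝ) (Λ : ℕ → ℝ) (hΛ : ∀ b, 0 < Λ b)
    (hPB : ∀ b ∈ range (Nat.log 2 N + 1), PB (min N (2 ^ (b + 1))) J δ (Λ b)) (a : ℕ → ℂ)
    (x : ℝ) (S : Finset ℝ) (hS : Sep S) (hx : ∀ t ∈ S, ∃ j < J, |t - (x + j * δ)| ≤ 1) :
    ∑ t ∈ S, ‖DP N a t‖ ^ 2 ≤ 9 * (∑ b ∈ range (Nat.log 2 N + 1), Λ b) * ∑ n ∈ Icc 1 N, ‖a n‖ ^ 2 := by
  classical
  set B := Nat.log 2 N + 1 with hB
  set A : ℕ → ℕ → ℂ := fun b n => if Nat.log 2 n = b then a n else 0 with hA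
  set Nb : ℕ → ℕ := fun b => min N (2 ^ (b + 1)) with hNb
  have hlog : ∀ n ∈ Icc 1 N, Nat.log 2 n ∈ range B := by
    intro n hn
    rw [mem_Icc] at hn
    rw [mem_range]
    have := Nat.log_mono_right (b := 2) hn.2
    omega
  have hsub : ∀ b, Icc 1 (Nb b) ⊆ Icc 1 N := by
    intro b n hn
    simp only [hNb] at hn
    rw [mem_Icc] at hn ⊢
    exact ⟨hn.1, hn.2.trans (min_le_left _ _)⟩
  have hzero : ∀ b, ∀ n ∈ Icc 1 N, n ∉ Icc 1 (Nb b) → A b n = 0 := by
    intro b n hn hn'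
    simp only [hA]
    rw [if_neg]
    intro h
    apply hn'
    rw [mem_Icc] at hn ⊢
    refine ⟨hn.1, ?_⟩
    simp only [hNb]
    refine le_min hn.2 ?_
    have h1 := Nat.lt_pow_succ_log_self (b := 2) (by norm_num) n
    rw [h] at h1
    exact h1.le
  have hdec : ∀ t, DP N a t = ∑ b ∈ range B, DP (Nb b) (A b) t := by
    intro t
    have h1 : ∀ b ∈ range B, DP (Nb b) (A b) t = ∑ n ∈ Icc 1 N, A b n * ph t n := by
      intro b _
      unfold DP
      apply sum_subset (hsub b)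
      intro n hn hn'
      rw [hzero b n hn hn', zero_mul]
    rw [sum_congr rfl h1, sum_comm]
    unfold DP
    apply sum_congr rfl
    intro n hn
    rw [← sum_mul]
    congr 1
    simp only [hA]
    rw [sum_ite_eq, if_pos (hlog n hn)]
  have hnorm : ∑ b ∈ range B, ∑ n ∈ Icc 1 (Nb b), ‖A b n‖ ^ 2 = ∑ n ∈ Icc 1 N, ‖a n‖ ^ 2 := by
    have h1 : ∀ b ∈ range B, ∑ n ∈ Icc 1 (Nb b), ‖A b n‖ ^ 2 = ∑ n ∈ Icc 1 N, ‖A b n‖ ^ 2 := by
      intro b _
      apply sum_subset (hsub b)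
      intro n hn hn'
      rw [hzero b n hn hn', norm_zero]
      norm_num
    rw [sum_congr rfl h1, sum_comm]
    apply sum_congr rfl
    intro n hn
    have h2 : ∀ b ∈ range B, ‖A b n‖ ^ 2 = if Nat.log 2 n = b then ‖a n‖ ^ 2 else 0 := by
      intro b _
      simp only [hA]
      split_ifs <;> simp
    rw [sum_congr rfl h2, sum_ite_eq, if_pos (hlog n hn)]
  have hblk : ∀ b ∈ range B, ∑ t ∈ S, ‖DP (Nb b) (A b) t‖ ^ 2 ≤ 9 * Λ b * ∑ n ∈ Icc 1 (Nb b), ‖A b n‖ ^ 2 := by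
    intro b hb
    refine near (Nb b) J δ (Λ b) (hPB b hb) (hΛ b).le (b * Real.log 2) (A b) ?_ x S hS hx
    intro n hn hne
    rw [mem_Icc] at hn
    have h1 : Nat.log 2 n = b := by
      by_contra h
      exact hne (by simp only [hA]; rw [if_neg h])
    have hn0 : (0 : ℝ) < n := by exact_mod_cast hn.1
    have h2 : ((2 : ℝ) ^ b) ≤ n := by
      rw [← h1]
      exact_mod_cast Nat.pow_log_le_self 2 (by omega)
    have h3 : (n : ℝ) ≤ (2 : ℝ) ^ (b + 1) := by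
      rw [← h1]
      exact_mod_cast (Nat.lt_pow_succ_log_self (b := 2) (by norm_num) n).le
    have h4 := Real.log_le_log (by positivity) h2
    have h5 := Real.log_le_log hn0 h3
    rw [Real.log_pow] at h4 h5
    push_cast at h5
    have h6 : Real.log 2 ≤ 1 := by
      have := Real.log_two_lt_d9
      linarith
    rw [abs_le]
    constructor <;> linarith
  have hpt : ∀ t, ‖DP N a t‖ ^ 2 ≤ (∑ b ∈ range B, Λ b) * ∑ b ∈ range B, ‖DP (Nb b) (A b) t‖ ^ 2 / Λ b := by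
    intro t
    rw [hdec]
    have h1 : ‖∑ b ∈ range B, DP (Nb b) (A b) t‖ ≤
        ∑ b ∈ range B, Real.sqrt (Λ b) * (‖DP (Nb b) (A b) t‖ / Real.sqrt (Λ b)) := by
      refine (norm_sum_le _ _).trans (le_of_eq ?_)
      apply sum_congr rfl
      intro b _
      have := Real.sqrt_pos.2 (hΛ b)
      field_simp
    have h2 := sum_mul_sq_le_sq_mul_sq (range B) (fun b => Real.sqrt (Λ b))
      (fun b => ‖DP (Nb b) (A b) t‖ / Real.sqrt (Λ b))
    refine (pow_le_pow_left₀ (norm_nonneg _) h1 2).trans (h2.trans (le_of_eq ?_))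
    congr 1
    · apply sum_congr rfl
      intro b _
      exact Real.sq_sqrt (hΛ b).le
    · apply sum_congr rfl
      intro b _
      rw [div_pow, Real.sq_sqrt (hΛ b).le]
  have hΛ0 : 0 ≤ ∑ b ∈ range B, Λ b := sum_nonneg fun b _ => (hΛ b).le
  calc ∑ t ∈ S, ‖DP N a t‖ ^ 2
      ≤ ∑ t ∈ S, (∑ b ∈ range B, Λ b) * ∑ b ∈ range B, ‖DP (Nb b) (A b) t‖ ^ 2 / Λ b := sum_le_sum fun t _ => hpt t
    _ = (∑ b ∈ range B, Λ b) * ∑ b ∈ range B, (∑ t ∈ S, ‖DP (Nb b) (A b) t‖ ^ 2) / Λ b := by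
        rw [← mul_sum, sum_comm]
        congr 1
        apply sum_congr rfl
        intro b _
        rw [sum_div]
    _ ≤ (∑ b ∈ range B, Λ b) * ∑ b ∈ range B, 9 * ∑ n ∈ Icc 1 (Nb b), ‖A b n‖ ^ 2 := by
        apply mul_le_mul_of_nonneg_left _ hΛ0
        apply sum_le_sum
        intro b hb
        rw [div_le_iff₀ (hΛ b)]
        have := hblk b hb
        linarith
    _ = _ := by
        rw [← mul_sum, hnorm]
        ring

end Pool.Agent.J6H80.AP
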